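import Pool.Agent.Lib.MP_a054ff_gt.Sph

-- part Pool.Agent.Lib.MP_a054ff_gt.Approx
section

/-! A continuous function on the sphere whose dipole moment is smaller than its integral becomes
positive after subtracting spherical harmonics of degree at least two. -/

namespace Pool.Agent.Lib.MP_a054ff_gt

open Filter Topology Set MeasureTheory Metric
open scoped ContDiff

/-- restriction to the sphere -/
def res (f : E3 → ℝ) (hf : Continuous f) : C(S2, ℝ) := ⟨fun x => f x, hf.comp continuous_subtype_val⟩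

/-- integration as a continuous functional -/
noncomputable def Icl : C(S2, ℝ) →L[ℝ] ℝ :=
  LinearMap.mkContinuous
    { toFun := fun F => ∫ x, F x ∂σ2
      map_add' := fun F G => integral_add (int_cont F.continuous) (int_cont G.continuous)
      map_smul' := fun c F => integral_const_mul c F }
    (σ2.real univ) fun F => by
      rw [mul_comm]
      exact norm_integral_le_of_norm_le_const (Eventually.of_forall fun x => F.norm_coe_le_norm x)

theorem Icl_apply (F : C(S2, ℝ)) : Icl F = ∫ x, F x ∂σ2 := rfl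

/-- span of the spherical harmonics of degree at least `n` -/
def VV (n : ℕ) : Submodule ℝ C(S2, ℝ) :=
  Submodule.span ℝ {F | ∃ (l : ℕ) (Y : E3 → ℝ) (h : Harm l Y), n ≤ l ∧ F = res Y h.sm.continuous}

/-- coordinate functions on the sphere -/
noncomputable def cc (i : Fin 3) : C(S2, ℝ) := res _ (contDiff_coord i).continuous

theorem VV_mul (i : Fin 3) {F : C(S2, ℝ)} (hF : F ∈ VV 0) : cc i * F ∈ VV 0 := by
  induction hF using Submodule.span_induction with
  | zero => simp
  | add a b _ _ ha hb => rw [mul_add]; exact add_mem ha hb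
  | smul c a _ ha => rw [mul_smul_comm]; exact Submodule.smul_mem _ c ha
  | mem F hF =>
    obtain ⟨l, Y, h, -, rfl⟩ := hF
    have hl : (2 * l + 1 : ℝ) ≠ 0 := by positivity
    have h1 := h.up hl i
    have h2 : res _ (h.pd i).sm.continuous ∈ VV 0 := by
      rcases l with _ | l
      · have h0 : Harm 0 Y := by simpa using h
        have : res _ (h.pd i).sm.continuous = 0 := by
          ext x
          have e : Y = fun _ => Y 0 := funext h0.zero
          exact (congrArg (fun F => pd i F x) e).trans (pd_const _)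
        rw [this]; exact zero_mem _
      · exact Submodule.subset_span ⟨l, _, by simpa using h.pd i, Nat.zero_le _, rfl⟩
    have h3 : res _ h1.sm.continuous ∈ VV 0 :=
      Submodule.subset_span ⟨l + 1, _, by simpa using h1, Nat.zero_le _, rfl⟩
    convert add_mem h3 (Submodule.smul_mem _ (2 * l + 1 : ℝ)⁻¹ h2) using 1
    ext x
    simp [res, cc, rr_S2]

theorem VV_dense : Dense (VV 0 : Set C(S2, ℝ)) := by
  let A : Subalgebra ℝ C(S2, ℝ) :=
    { carrier := {F | ∀ G ∈ VV 0, F * G ∈ VV 0}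
      mul_mem' := fun ha hb G hG => by rw [mul_assoc]; exact ha _ (hb G hG)
      add_mem' := fun ha hb G hG => by rw [add_mul]; exact add_mem (ha G hG) (hb G hG)
      algebraMap_mem' := fun r G hG => by
        rw [← Algebra.smul_def]; exact Submodule.smul_mem _ r hG }
  have h1 : (1 : C(S2, ℝ)) ∈ VV 0 :=
    Submodule.subset_span ⟨0, _, by simpa using harm_const 1, le_rfl, rfl⟩
  have hs : A.SeparatesPoints := by
    intro x y hxy
    obtain ⟨i, hi⟩ : ∃ i, (x : E3) i ≠ (y : E3) i := by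
      by_contra! h
      exact hxy (Subtype.ext (PiLp.ext h))
    exact ⟨cc i, ⟨cc i, fun G hG => VV_mul i hG, rfl⟩, hi⟩
  have := ContinuousMap.subalgebra_topologicalClosure_eq_top_of_separatesPoints A hs
  intro F
  have hF : F ∈ A.topologicalClosure := by rw [this]; trivial
  exact closure_mono (fun G hG => by simpa using hG 1 h1) hF

theorem VV_two {F : C(S2, ℝ)} (hF : F ∈ VV 2) :
    ∃ w : E3 → ℝ, ContDiff ℝ ∞ w ∧ (∀ x, Lap0 w x = 0) ∧ ∀ x : S2, F x = 2 * Qq2 w x := by
  induction hF using Submodule.span_induction with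
  | zero => exact ⟨fun _ => 0, contDiff_const, fun _ => lap_const 0, fun x => by
      simp [(harm_const 0).qq]⟩
  | add a b _ _ ha hb =>
    obtain ⟨v, v1, v2, v3⟩ := ha
    obtain ⟨w, w1, w2, w3⟩ := hb
    refine ⟨fun x => v x + w x, v1.add w1, fun x => ?_, fun x => ?_⟩
    · rw [lap_add (sm_of v1 x) (sm_of w1 x), v2, w2, add_zero]
    · rw [qq_add (sm_of v1 _) (sm_of w1 _), ContinuousMap.add_apply, v3, w3, mul_add]
  | smul c a _ ha =>
    obtain ⟨w, w1, w2, w3⟩ := ha
    refine ⟨fun x => c * w x, contDiff_const.mul w1, fun x => ?_, fun x => ?_⟩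
    · rw [lap_cmul c (sm_of w1 x), w2, mul_zero]
    · rw [qq_cmul c (sm_of w1 _), ContinuousMap.smul_apply, w3, smul_eq_mul]; ring
  | mem F hF =>
    obtain ⟨l, Y, h, hl, rfl⟩ := hF
    have h2 : (2 : ℝ) ≤ l := by exact_mod_cast hl
    refine ⟨fun x => (2 * (l * (l - 1)) : ℝ)⁻¹ * Y x, contDiff_const.mul h.sm, fun x => ?_,
      fun x => ?_⟩
    · rw [lap_cmul _ (sm_of h.sm x), h.lap, mul_zero]
    · rw [qq_cmul _ (sm_of h.sm _), h.qq]
      have : (l : ℝ) - 1 ≠ 0 := by linarith
      have : (l : ℝ) ≠ 0 := by linarith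
      simp only [res, ContinuousMap.coe_mk]
      field_simp

theorem II_one_pos : 0 < II fun _ => 1 := by
  simp only [II, integral_const, smul_eq_mul, mul_one]
  exact ENNReal.toReal_pos (isOpen_univ.measure_ne_zero σ2 ⟨⟨EuclideanSpace.single 0 1, by simp⟩,
    mem_univ _⟩) (measure_ne_top _ _)

theorem II_coord (i : Fin 3) : II (fun x => x i) = 0 := by
  simpa using (harm_coord i).orth (harm_const 1) (by norm_num)

theorem II_coord2 (i j : Fin 3) :
    II (fun x => x i * x j) = (if j = i then 1 / 3 else 0) * II fun _ => 1 := by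
  have h := (harm_coord j).up (by norm_num) i
  have h1 := h.orth (harm_const 1) (by norm_num)
  rw [II_congr (g := fun x => x i * x j + -(if j = i then 1 / 3 else 0) * 1) fun x => by
      rw [rr_S2, pd_coord]; split_ifs <;> norm_num,
    II_add (by fun_prop) (by fun_prop), II_cmul] at h1
  linarith

theorem exists_harm {Φ : E3 → ℝ} (hΦ : Continuous Φ) {m : E3} (hm : ‖m‖ < II Φ)
    (hm' : ∀ i, II (fun x => x i * Φ x) = m i) :
    ∃ w : E3 → ℝ, ContDiff ℝ ∞ w ∧ (∀ x, Lap0 w x = 0) ∧ ∀ x : S2, 0 < Φ x - 2 * Qq2 w x := by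
  by_contra hcon
  let s : Set C(S2, ℝ) := {F | ∀ x, 0 < F x}
  let t : Set C(S2, ℝ) := (fun v => res Φ hΦ - v) '' VV 2
  have so : IsOpen s := by
    have := ContinuousMap.isOpen_setOfPred_mapsTo (X := S2) isCompact_univ (isOpen_Ioi (a := (0 : ℝ)))
    convert this using 2
    simp [MapsTo]
  have sc : Convex ℝ s := by
    intro F hF G hG a b ha hb hab x
    exact (convex_Ioi (0 : ℝ)) (hF x) (hG x) ha hb hab
  have tc : Convex ℝ t := by
    rintro _ ⟨F, hF, rfl⟩ _ ⟨G, hG, rfl⟩ a b _ _ hab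
    refine ⟨a • F + b • G, add_mem (Submodule.smul_mem _ a hF) (Submodule.smul_mem _ b hG), ?_⟩
    have : res Φ hΦ = (a + b) • res Φ hΦ := by rw [hab, one_smul]
    conv_lhs => rw [this]
    module
  have dj : Disjoint s t := by
    rw [Set.disjoint_left]
    rintro _ h1 ⟨F, hF, rfl⟩
    obtain ⟨w, w1, w2, w3⟩ := VV_two hF
    exact hcon ⟨w, w1, w2, fun x => by simpa [res, w3] using h1 x⟩
  obtain ⟨f, u, hs, ht⟩ := geometric_hahn_banach_open sc so tc dj
  have fV : ∀ v ∈ VV 2, f v = 0 := by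
    intro v hv
    by_contra h
    have := ht _ ⟨((f (res Φ hΦ) - u + 1) / f v) • v, Submodule.smul_mem _ _ hv, rfl⟩
    rw [map_sub, map_smul, smul_eq_mul, div_mul_cancel₀ _ h] at this
    linarith
  have fΦ : u ≤ f (res Φ hΦ) := by simpa using ht _ ⟨0, zero_mem _, rfl⟩
  have fs : ∀ F ∈ s, f F ≤ 0 := by
    intro F hF
    by_contra! h
    have hp : 0 < (|u| + 1) / f F := by positivity
    have := hs (((|u| + 1) / f F) • F) fun x => mul_pos hp (hF x)
    rw [map_smul, smul_eq_mul, div_mul_cancel₀ _ h.ne'] at this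
    linarith [le_abs_self u]
  have lim : ∀ (F : C(S2, ℝ)) (a : ℝ), (∀ x, 0 ≤ F x) → (∀ G ∈ s, f G ≤ a) → f F ≤ a := by
    intro F a hF ha
    have c : Tendsto (fun e : ℝ => f (F + e • 1)) (𝓝[>] 0) (𝓝 (f (F + (0 : ℝ) • 1))) :=
      tendsto_nhdsWithin_of_tendsto_nhds (Continuous.tendsto (by fun_prop) 0)
    rw [zero_smul, add_zero] at c
    refine le_of_tendsto c ?_
    filter_upwards [self_mem_nhdsWithin] with e he
    exact ha _ fun x => by simpa using add_pos_of_nonneg_of_pos (hF x) he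
  have u0 : 0 ≤ u := by simpa using lim 0 u (fun _ => le_rfl) fun G hG => (hs G hG).le
  have σp := II_one_pos
  set σ := II fun _ => 1
  let c : ℝ := -f 1 / σ
  let b : E3 := WithLp.toLp 2 fun i => -3 * f (cc i) / σ
  let l : C(S2, ℝ) := c • 1 + ∑ i, b i • cc i
  have lx : ∀ x : S2, l x = c + ∑ i, b i * (x : E3) i := fun x => by simp [l, cc, res]
  have Il : ∀ (Y : E3 → ℝ) (h : Continuous Y),
      Icl (l * res Y h) = c * II Y + ∑ i, b i * II fun x => x i * Y x := by
    intro Y h
    simp only [l, add_mul, Finset.sum_mul, smul_mul_assoc, map_add, map_sum, map_smul, one_mul,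
      smul_eq_mul]
    rfl
  have rep : ∀ F, f F = -Icl (l * F) := by
    refine fun F => VV_dense.induction (P := fun F => f F = -Icl (l * F)) (fun F hF => ?_)
      (isClosed_eq (by fun_prop) (by fun_prop)) F
    induction hF using Submodule.span_induction with
    | zero => simp
    | add a b _ _ ha hb => rw [mul_add, map_add, map_add, ha, hb, neg_add]
    | smul c a _ ha => rw [mul_smul_comm, map_smul, map_smul, ha, smul_neg]
    | mem F hF =>
      obtain ⟨n, Y, h, -, rfl⟩ := hF
      rw [Il]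
      rcases n with _ | _ | n
      · have h0 : Harm 0 Y := by simpa using h
        have e : res Y h.sm.continuous = Y 0 • 1 := by ext x; simp [res, h0.zero x]
        rw [e, II_congr (g := fun _ => Y 0 * 1) fun x => by rw [h0.zero, mul_one], II_cmul]
        have : ∀ i, II (fun x => x i * Y x) = 0 := fun i => by
          rw [II_congr (g := fun x => Y 0 * x i) fun x => by rw [h0.zero, mul_comm], II_cmul,
            II_coord, mul_zero]
        simp only [this, map_smul, smul_eq_mul, c, mul_zero, Finset.sum_const_zero]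
        field_simp
        ring
      · have h1 : Harm 1 Y := by simpa using h
        have e : res Y h.sm.continuous = ∑ i, pd i Y 0 • cc i := by
          ext x; simp [res, cc, h1.one x]
        have e0 : II Y = 0 := by simpa using h1.orth (harm_const 1) (by norm_num)
        have e1 : ∀ i, II (fun x => x i * Y x) = pd i Y 0 * σ / 3 := fun i => by
          rw [II_congr (g := fun x => pd 0 Y 0 * (x i * x 0) + pd 1 Y 0 * (x i * x 1) +
              pd 2 Y 0 * (x i * x 2)) fun x => by rw [h1.one, Fin.sum_univ_three]; ring,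
            II_add (by fun_prop) (by fun_prop), II_add (by fun_prop) (by fun_prop), II_cmul,
            II_cmul, II_cmul, II_coord2, II_coord2, II_coord2]
          fin_cases i <;> simp <;> ring
        simp only [e, e0, e1, map_add, map_smul, smul_eq_mul, b, Fin.sum_univ_three]
        field_simp
        ring
      · have hn : (0 : ℝ) ≤ n := n.cast_nonneg
        have e0 : II Y = 0 := by
          simpa using h.orth (harm_const 1) (by push_cast; nlinarith)
        have e1 : ∀ i, II (fun x => x i * Y x) = 0 := fun i =>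
          h.orth (harm_coord i) (by push_cast; nlinarith)
        rw [fV _ (Submodule.subset_span ⟨_, Y, h, by omega, rfl⟩)]
        simp [e0, e1]
  have lpos : ∀ x, 0 ≤ l x := by
    have c1 : Continuous fun x => max (-l x) 0 := by fun_prop
    have h1 := lim ⟨_, c1⟩ 0 (fun x => le_max_right _ _) fs
    rw [rep, Icl_apply, ← integral_neg] at h1
    have h2 : ∀ x, 0 ≤ -(l * (⟨_, c1⟩ : C(S2, ℝ))) x := fun x => by
      simp only [ContinuousMap.mul_apply, ContinuousMap.coe_mk]
      rcases le_total (-l x) 0 with h | h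
      · simp [max_eq_right h]
      · rw [max_eq_left h]; nlinarith
    have c2 : Continuous fun x => -(l * (⟨_, c1⟩ : C(S2, ℝ))) x := by fun_prop
    have h3 := (integral_eq_zero_iff_of_nonneg h2 (int_cont c2)).1
      (le_antisymm h1 (integral_nonneg h2))
    have h4 := Continuous.ae_eq_iff_eq σ2 c2 continuous_zero |>.1 h3
    intro x
    by_contra! h
    have := congrFun h4 x
    simp only [ContinuousMap.mul_apply, ContinuousMap.coe_mk, Pi.zero_apply] at this
    rw [max_eq_left (by linarith)] at this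
    nlinarith
  have inn : ∀ y : E3, ∑ i, b i * y i = inner ℝ b y := fun y => by
    simp [PiLp.inner_apply, mul_comm]
  have bc : ‖b‖ ≤ c := by
    by_cases hb : b = 0
    · have := lpos ⟨EuclideanSpace.single 0 1, by simp⟩
      rw [lx, inn, hb] at this
      simpa [hb] using this
    · have hn : 0 < ‖b‖ := norm_pos_iff.2 hb
      have := lpos ⟨-‖b‖⁻¹ • b, by simp [norm_smul, hn.ne']⟩
      rw [lx, inn, inner_smul_right, real_inner_self_eq_norm_sq] at this
      have e : -‖b‖⁻¹ * ‖b‖ ^ 2 = -‖b‖ := by field_simp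
      linarith
  have fin := rep (res Φ hΦ)
  rw [Il] at fin
  simp only [hm', inn] at fin
  have cs : -(‖b‖ * ‖m‖) ≤ inner ℝ b m := (abs_le.1 (abs_real_inner_le_norm b m)).1
  have c0 : 0 ≤ c := (norm_nonneg _).trans bc
  have h5 : ‖b‖ * ‖m‖ ≤ c * ‖m‖ := mul_le_mul_of_nonneg_right bc (norm_nonneg _)
  have h6 : c * (II Φ - ‖m‖) ≤ 0 := by nlinarith
  have h7 : c = 0 := le_antisymm (by by_contra! h; nlinarith [mul_pos h (sub_pos.2 hm)]) c0
  have h8 : f 1 = 0 := by
    have : -f 1 / σ = 0 := h7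
    simpa [σp.ne'] using this
  have h9 := hs 1 fun _ => one_pos
  have h10 : b = 0 := norm_le_zero_iff.1 (h7 ▸ bc)
  rw [h7, h10] at fin
  simp at fin
  linarith

end Pool.Agent.Lib.MP_a054ff_gt
end

-- part Pool.Agent.Lib.MP_a054ff_gt.Main
section

/-! First-order criterion for positive type near the round data. -/

namespace Pool.Agent.Lib.MP_a054ff_gt

open Filter Topology Set Metric MeasureTheory
open scoped ContDiff

theorem dl_comm (i j : Fin 3) : dl i j = dl j i := by simp [dl, eq_comm]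

theorem main {b H : ℝ → E3 → ℝ} {b1 H1 : E3 → ℝ}
    (hb : ContDiff ℝ ∞ fun z : ℝ × E3 => b z.1 z.2) (hH : ContDiff ℝ ∞ fun z : ℝ × E3 => H z.1 z.2)
    (Jb : J b (fun _ => 0) b1) (JH : J H (fun _ => 2) H1) {m : E3}
    (hm : ‖m‖ < -II fun x => H1 x + 2 * b1 x) (hm' : ∀ i, II (fun x => x i * H1 x) = m i) :
    ∀ᶠ e in 𝓝[>] (0 : ℝ), ShellFillIn (fun x => Real.exp (2 * b e x)) (H e) := by
  have sb1 : ContDiff ℝ ∞ b1 := contDiff_of_sm Jb.sm1
  have sH1 : ContDiff ℝ ∞ H1 := contDiff_of_sm JH.sm1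
  have sD := contDiff_DD sb1
  obtain ⟨w0, sw0, lw0, pw0⟩ := exists_harm
    (Φ := fun x => -1 * (H1 x + 2 * b1 x) + -1 * DD b1 x) (m := -m) (by fun_prop) (by
      have := II_DD sb1 (contDiff_const (c := (1 : ℝ)))
      simp only [(harm_const 1).dd, one_mul, zero_mul, neg_zero, mul_zero] at this
      rw [II_add (by fun_prop) (by fun_prop), II_cmul, II_cmul, norm_neg]
      have e : II (DD b1) = 0 := by simpa [II] using this
      rw [e]; linarith) (fun i => by
      have := II_DD sb1 (contDiff_coord i)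
      rw [II_congr (f := fun x => b1 x * DD (fun y => y i) x)
        (g := fun x => -2 * (x i * b1 x)) fun x => by rw [(harm_coord i).dd]; ring, II_cmul] at this
      rw [II_congr (g := fun x => -1 * (x i * H1 x) + -2 * (x i * b1 x) + -1 * (x i * DD b1 x))
        fun x => by ring, II_add (by fun_prop) (by fun_prop), II_add (by fun_prop) (by fun_prop),
        II_cmul, II_cmul, II_cmul, this, hm']
      simp)
  obtain ⟨w, hw⟩ : ∃ w : E3 → ℝ, w = fun x => w0 x + -1 / 2 * b1 x := ⟨_, rfl⟩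
  have sw : ContDiff ℝ ∞ w := hw ▸ sw0.add (contDiff_const.mul sb1)
  obtain ⟨T, hT⟩ : ∃ T : E3 → ℝ, T = fun x => Lap0 w x - Qq2 w x := ⟨_, rfl⟩
  have sT : ContDiff ℝ ∞ T := hT ▸ contDiff_of_sm fun x => (sm_of sw x).lap.sub (sm_of sw x).qq
  obtain ⟨ψ, hψ⟩ : ∃ ψ : E3 → ℝ, ψ = fun x => -H1 x - 2 * b1 x + 2 * Eu b1 x + 2 * T x := ⟨_, rfl⟩
  have sψ : ContDiff ℝ ∞ ψ := hψ ▸ contDiff_of_sm fun x =>
    (((sm_of sH1 x).neg.sub ((sm_of sb1 x).cmul 2)).add ((sm_of sb1 x).eu.cmul 2)).add
      ((sm_of sT x).cmul 2)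
  obtain ⟨Ws, sW, lW, bW⟩ := exists_sup sψ fun x hx => by
    have := pw0 ⟨x, by simpa using hx⟩
    simp only [DD, rr, hx] at this
    rw [hψ, hT, hw]
    simp only
    rw [lap_add (sm_of sw0 x) ((sm_of sb1 x).cmul _), lap_cmul _ (sm_of sb1 x),
      qq_add (sm_of sw0 x) ((sm_of sb1 x).cmul _), qq_cmul _ (sm_of sb1 x), lw0]
    linarith
  obtain ⟨W, hW⟩ : ∃ W : E3 → ℝ, W = fun x => 4 * w0 x + Ws x := ⟨_, rfl⟩
  have sWW : ContDiff ℝ ∞ W := hW ▸ (contDiff_const.mul sw0).add sW
  have lWW : ∀ x, ‖x‖ ≤ 1 → Lap0 W x < 0 := fun x hx => by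
    rw [hW, lap_add ((sm_of sw0 x).cmul _) (sm_of sW x), lap_cmul _ (sm_of sw0 x), lw0]
    linarith [lW x hx]
  obtain ⟨α, hα⟩ : ∃ α : ℝ → E3 → ℝ, α = fun e x => Real.exp (2 * b e x) := ⟨_, rfl⟩
  have Jα : J α (fun _ => 1) fun x => 2 * b1 x :=
    hα ▸ (Jb.cmul 2).exp.cast (fun _ => by simp) fun _ => by simp
  obtain ⟨κ, hκ⟩ : ∃ κ : ℝ → E3 → ℝ, κ = fun e x => 1 / 2 * (α e x *
    (Real.exp (b e x) * H e x - 2) - Eu (α e) x + e * ψ x) - e * T x := ⟨_, rfl⟩
  have Jκ : J κ (fun _ => 0) fun _ => 0 := hκ ▸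
    (((((Jα.mul ((Jb.exp.mul JH).sub (J.const (contDiff_const (c := 2))))).sub Jα.eu).add
      (J.eps.mul (J.const sψ))).cmul (1 / 2)).sub (J.eps.mul (J.const sT))).cast
      (fun _ => by simp [eu_const]) fun x => by
        rw [eu_cmul 2 (sm_of sb1 x), hψ]; simp; ring
  obtain ⟨β, hβ⟩ : ∃ β : ℝ → E3 → ℝ,
    β = fun e x => α e x + (rr x - 1) * κ e x + e * Ws x := ⟨_, rfl⟩
  have Jβ : J β (fun _ => 1) fun x => 2 * b1 x + Ws x := hβ ▸
    ((Jα.add ((J.const (contDiff_rr.sub (contDiff_const (c := 1)))).mul Jκ)).add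
      (J.eps.mul (J.const sW))).cast (fun _ => by simp) fun _ => by simp
  obtain ⟨u, hu⟩ : ∃ u : ℝ → E3 → ℝ, u = fun e x => 1 + e * (1 / 4 * W x) := ⟨_, rfl⟩
  have Ju : J u (fun _ => 1) fun x => 1 / 4 * W x := hu ▸
    ((J.const (contDiff_const (c := 1))).add (J.eps.mul (J.const
      ((contDiff_const (c := 1 / 4)).mul sWW)))).cast (fun _ => by simp) fun _ => by simp
  let χ : ContDiffBump (0 : E3) := ⟨3 / 5, 4 / 5, by norm_num, by norm_num⟩
  have sχ : ContDiff ℝ ∞ χ := χ.contDiff
  obtain ⟨X, hX⟩ : ∃ X : Fin 3 → E3 → ℝ,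
    X = fun i x => -2 * (w x * x i) + (rr x - 1) * pd i w x := ⟨_, rfl⟩
  have sX : ∀ i, ContDiff ℝ ∞ (X i) := fun i => hX ▸
    (contDiff_const.mul (sw.mul (contDiff_coord i))).add
      ((contDiff_rr.sub contDiff_const).mul (contDiff_pd sw i))
  obtain ⟨Y, hY⟩ : ∃ Y : Fin 3 → E3 → ℝ, Y = fun i x => (1 - χ x) * X i x := ⟨_, rfl⟩
  have sY : ∀ i, ContDiff ℝ ∞ (Y i) := fun i => hY ▸ (contDiff_const.sub sχ).mul (sX i)
  have sS : ∀ i j, ContDiff ℝ ∞ fun x => pd i (Y j) x + pd j (Y i) x :=
    fun i j => (contDiff_pd (sY j) i).add (contDiff_pd (sY i) j)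
  obtain ⟨G, hG⟩ : ∃ G : ℝ → (E3 → ℝ) → Met, G = fun e v x => Matrix.of fun i j =>
    dl i j * ((1 - χ x) * (β e x + e * (4 * w x)) + χ x * v x ^ 4) +
      e * (pd i (Y j) x + pd j (Y i) x) := ⟨_, rfl⟩
  have JG : ∀ i j, J (fun e x => G e (u e) x i j) (fun _ => dl i j)
      fun x => dl i j * W x + (pd i (Y j) x + pd j (Y i) x) := fun i j => hG ▸
    (((((J.const ((contDiff_const (c := 1)).sub sχ)).mul (Jβ.add (J.eps.mul (J.const
      ((contDiff_const (c := 4)).mul sw))))).add ((J.const sχ).mul (Ju.pow 4))).cmul (dl i j)).add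
      (J.eps.mul (J.const (sS i j)))).cast (fun _ => by simp) fun x => by
        simp only [hW, hw]; ring
  have JS := (J_scal (g := fun e => G e (u e)) JG fun i j => funext fun x => by
    rw [dl_comm, add_comm (pd i (Y j) x)]).cast (H1 := fun x => -2 * Lap0 W x) (fun _ => rfl)
    fun x => var_formula (sm_of sWW x) fun i => sm_of (sY i) x
  have kB := isCompact_closedBall (0 : E3) 1
  have e1 := JS.pos kB fun x hx => by linarith [lWW x (by simpa using hx)]
  have e2 : ∀ᶠ e in 𝓝 (0 : ℝ), ∀ i j, ∀ x ∈ closedBall (0 : E3) 1,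
      |G e (u e) x i j - dl i j| < 1 / 4 :=
    eventually_all.2 fun i => eventually_all.2 fun j => (JG i j).near kB (by norm_num)
  have e3 := Ju.near kB one_pos
  filter_upwards [e1, nhdsWithin_le_nhds e2, nhdsWithin_le_nhds e3, self_mem_nhdsWithin]
    with e e1 e2 e3 e0
  have e0 : 0 < e := e0
  have sbe : ContDiff ℝ ∞ (b e) := hb.comp (contDiff_prodMk_right e)
  have sHe : ContDiff ℝ ∞ (H e) := hH.comp (contDiff_prodMk_right e)
  have sα : ContDiff ℝ ∞ (α e) := hα ▸ (contDiff_const.mul sbe).exp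
  have sκ : ContDiff ℝ ∞ (κ e) := hκ ▸ contDiff_of_sm fun x =>
    (((((sm_of sα x).mul (((sm_of sbe x).exp.mul (sm_of sHe x)).sub (Sm.const 2))).sub
      (sm_of sα x).eu).add ((sm_of sψ x).cmul e)).cmul _).sub ((sm_of sT x).cmul e)
  have sβ : ContDiff ℝ ∞ (β e) := hβ ▸
    (sα.add ((contDiff_rr.sub contDiff_const).mul sκ)).add (contDiff_const.mul sW)
  have su : ContDiff ℝ ∞ (u e) := hu ▸
    contDiff_const.add (contDiff_const.mul (contDiff_const.mul sWW))
  obtain ⟨s, s0, s1, v, sv, v1, v2, v3⟩ := exists_neck su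
    (fun x hx => by linarith [(abs_lt.1 (e3 x (by simpa using hx))).1]) fun x hx => by
      rw [hu]
      simp only
      rw [lap_add (Sm.const _) (((sm_of sWW x).cmul _).cmul _), lap_const,
        lap_cmul _ ((sm_of sWW x).cmul _), lap_cmul _ (sm_of sWW x)]
      nlinarith [lWW x hx]
  have sym : ∀ v x, (G e v x).IsSymm := fun v x => Matrix.IsSymm.ext fun i j => by
    simp only [hG, Matrix.of_apply]
    rw [dl_comm, add_comm (pd i (Y j) x)]
  have inner : ∀ x : E3, ‖x‖ < 3 / 5 → ∀ᶠ y in 𝓝 x, ∀ i j, G e v y i j = dl i j * v y ^ 4 := by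
    intro x hx
    have c1 : ∀ᶠ y in 𝓝 x, χ y = 1 := by
      filter_upwards [continuous_norm.continuousAt.eventually (gt_mem_nhds hx)] with y hy
      exact χ.one_of_mem_closedBall (mem_closedBall_zero_iff.2 hy.le)
    filter_upwards [c1, c1.eventually_nhds] with y a c i j
    have : ∀ i j, pd i (Y j) y = 0 := fun i j => by
      rw [pd_congr (g := fun _ => 0) (c.mono fun z hz => by simp [hY, hz]), pd_const]
    simp [hG, a, this]
  have outer : ∀ x : E3, 4 / 5 < ‖x‖ → ∀ᶠ y in 𝓝 x, ∀ i j, G e v y i j = dl i j * β e y +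
      (rr y - 1 ^ 2) * (e * (pd i (pd j w) y + pd j (pd i w) y)) := by
    intro x hx
    have c1 : ∀ᶠ y in 𝓝 x, χ y = 0 := by
      filter_upwards [continuous_norm.continuousAt.eventually (lt_mem_nhds hx)] with y hy
      exact χ.zero_of_le_dist (by rw [dist_zero_right]; exact hy.le)
    filter_upwards [c1, c1.eventually_nhds] with y a c i j
    have s := sm_of sw y
    have : ∀ i j, pd i (Y j) y = -2 * (w y * dl j i + y j * pd i w y) +
        ((rr y - 1) * pd i (pd j w) y + pd j w y * (2 * y i)) := fun i j => by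
      rw [pd_congr (g := X j) (c.mono fun z hz => by simp [hY, hz]), hX]
      simp only
      rw [pd_add ((s.mul (Sm.coord j)).cmul _) ((Sm.rr.sub (Sm.const 1)).mul (s.pd j)),
        pd_cmul _ (s.mul (Sm.coord j)), pd_mul s (Sm.coord j), pd_coord,
        pd_mul (Sm.rr.sub (Sm.const 1)) (s.pd j), pd_sub Sm.rr (Sm.const 1), pd_const, pd_rr,
        sub_zero, dl]
    simp only [hG, Matrix.of_apply, a, this, dl_comm j i]
    ring
  refine ⟨s, s0, by linarith, G e v, fun i j x hx => ?_, sym v, fun x h1 h2 => ?_,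
    fun x hx => ?_, fun x hx => ?_⟩
  · rw [hG]
    exact ((((((Sm.const 1).sub (sm_of sχ x)).mul ((sm_of sβ x).add
      (((sm_of sw x).cmul 4).cmul e))).add ((sm_of sχ x).mul ((sv x hx).pow 4))).cmul _).add
      ((sm_of (sS i j) x).cmul e)).at.contDiffWithinAt
  · by_cases h : 1 / 2 < ‖x‖
    · have : G e v =ᶠ[𝓝 x] G e (u e) := by
        filter_upwards [continuous_norm.continuousAt.eventually (lt_mem_nhds h)] with y hy
        simp only [hG, v1 y hy]
      rw [scal_congr this, this.self_of_nhds]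
      exact ⟨posDef_near (sym _ x) fun i j => e2 i j x (by simpa using h2),
        (e1 x (by simpa using h2)).le⟩
    · have hx : x ≠ 0 := by rintro rfl; simp at h1; linarith
      have a := inner x (by linarith)
      obtain ⟨p1, p2⟩ := v2 x h1 h2
      rw [scal_conf (sv x hx) p1.ne' a]
      refine ⟨?_, div_nonneg (by linarith) (by positivity)⟩
      have : G e v x = v x ^ 4 • (1 : Matrix (Fin 3) (Fin 3) ℝ) := by
        ext i j; rw [a.self_of_nhds, Matrix.smul_apply, one_eq, smul_eq_mul, mul_comm]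
      rw [this]
      exact Matrix.PosDef.one.smul (by positivity)
  · have h1 : rr x = 1 := by simp [rr, hx]
    have a := outer x (by linarith)
    have b0 : β e x = Real.exp (b e x) ^ 2 := by
      simp [hβ, hα, h1, (bW x hx).1, ← Real.exp_nat_mul]
    have b1 : α e x = Real.exp (b e x) ^ 2 := by simp [hα, ← Real.exp_nat_mul]
    have ep := Real.exp_pos (b e x)
    refine ⟨fun y _ => ?_, ?_⟩
    · have := rr_eq y
      rw [rr] at this
      simp only [a.self_of_nhds, h1, b0, this, Fin.sum_univ_three, dl, ← Real.exp_nat_mul]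
      simp
      ring
    · have s := sm_of sw x
      have := mean_sphere (k := fun i j y => e * (pd i (pd j w) y + pd j (pd i w) y)) one_pos
        (by rw [h1]; norm_num) (sm_of sβ x) (by rw [b0]; positivity)
        (fun i j => (((s.pd j).pd i).add ((s.pd i).pd j)).cmul e) a
      have eβ : Eu (β e) x = Eu (α e) x + 2 * κ e x - e * ψ x := by
        rw [hβ]
        simp only
        rw [eu_add ((sm_of sα x).add ((Sm.rr.sub (Sm.const 1)).mul (sm_of sκ x)))
          ((sm_of sW x).cmul e), eu_add (sm_of sα x) ((Sm.rr.sub (Sm.const 1)).mul (sm_of sκ x)),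
          eu_mul (Sm.rr.sub (Sm.const 1)) (sm_of sκ x), eu_sub Sm.rr (Sm.const 1), eu_const, eu_rr,
          eu_cmul _ (sm_of sW x), (bW x hx).2, h1]
        ring
      refine this.trans ?_
      rw [eβ, b0, Real.sqrt_sq ep.le, hκ, hT]
      simp only [b1, Lap0, Qq2, Fin.sum_univ_three]
      field_simp
      ring
  · have hx0 : x ≠ 0 := by rintro rfl; simp at hx; linarith
    have p1 := (v2 x hx.ge (by linarith)).1
    have := mean_sphere (g := G e v) (β := fun y => v y ^ 4) (k := fun _ _ _ => 0) s0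
      (by rw [rr, hx]) ((sv x hx0).pow 4) (by positivity) (fun _ _ => Sm.const 0)
      ((inner x (by linarith)).mono fun y hy i j => by simp [hy])
    refine this.trans ?_
    rw [eu_comp (η := fun t => t ^ 4) (hasDerivAt_pow 4 _) (sv x hx0), v3 x hx]
    simp
    left
    field_simp
    ring

end Pool.Agent.Lib.MP_a054ff_gt
end
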