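import Mathlib

/-! Coordinate Riemannian geometry on open subsets of Euclidean 3-space, and valid fill-ins with
nonempty minimal boundary whose underlying manifold is a spherical shell. -/

namespace Pool.Agent.Lib.MP_a054ff_gt

open scoped ContDiff

/-- Euclidean 3-space. -/
abbrev E3 : Type := EuclideanSpace ℝ (Fin 3)

/-- Fields of `3 × 3` matrices (coefficients of a metric). -/
abbrev Met : Type := E3 → Matrix (Fin 3) (Fin 3) ℝ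

/-- The partial derivative `∂ᵢ h`. -/
noncomputable def pd (i : Fin 3) (h : E3 → ℝ) (x : E3) : ℝ :=
  fderiv ℝ h x (EuclideanSpace.single i 1)

/-- The Christoffel symbols `Γᵏᵢⱼ` of a metric with coefficient matrix `g`. -/
noncomputable def Chr (g : Met) (k i j : Fin 3) (x : E3) : ℝ :=
  (1 / 2) * ∑ l, (g x)⁻¹ k l *
    (pd i (fun y => g y j l) x + pd j (fun y => g y i l) x - pd l (fun y => g y i j) x)

/-- The Ricci tensor `Rᵢⱼ = ∂ₖ Γᵏᵢⱼ - ∂ⱼ Γᵏᵢₖ + Γᵏₖₗ Γˡᵢⱼ - Γᵏⱼₗ Γˡᵢₖ`. -/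
noncomputable def Ric (g : Met) (i j : Fin 3) (x : E3) : ℝ :=
  ∑ k, (pd k (Chr g k i j) x - pd j (Chr g k i k) x +
    ∑ l, (Chr g k k l x * Chr g l i j x - Chr g k j l x * Chr g l i k x))

/-- The scalar curvature `gⁱʲ Rᵢⱼ`. -/
noncomputable def Scal (g : Met) (x : E3) : ℝ := ∑ i, ∑ j, (g x)⁻¹ i j * Ric g i j x

/-- The Hessian `∇²ᵢⱼ f = ∂ᵢ ∂ⱼ f - Γᵏᵢⱼ ∂ₖ f`. -/
noncomputable def Hess (g : Met) (f : E3 → ℝ) (i j : Fin 3) (x : E3) : ℝ :=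
  pd i (pd j f) x - ∑ k, Chr g k i j x * pd k f x

/-- The gradient `∇ⁱ f = gⁱʲ ∂ⱼ f`. -/
noncomputable def grad (g : Met) (f : E3 → ℝ) (i : Fin 3) (x : E3) : ℝ :=
  ∑ j, (g x)⁻¹ i j * pd j f x

/-- The squared length `|∇f|²`. -/
noncomputable def gradSq (g : Met) (f : E3 → ℝ) (x : E3) : ℝ := ∑ i, grad g f i x * pd i f x

/-- The mean curvature `(Δϱ - ∇²ϱ(∇ϱ, ∇ϱ) / |∇ϱ|²) / |∇ϱ|` of the level set of `ϱ` through `x`,
for the unit normal `∇ϱ / |∇ϱ|`. -/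
noncomputable def meanCurv (g : Met) (ϱ : E3 → ℝ) (x : E3) : ℝ :=
  ((∑ i, ∑ j, (g x)⁻¹ i j * Hess g ϱ i j x) -
    (∑ i, ∑ j, Hess g ϱ i j x * grad g ϱ i x * grad g ϱ j x) / gradSq g ϱ x) / √(gradSq g ϱ x)

/-- The data on the unit sphere with metric `a · (round metric)` and mean curvature `H` has a valid
fill-in with nonempty minimal boundary: a smooth metric of nonnegative scalar curvature on a shell
`s ≤ |x| ≤ 1` that induces the data on `|x| = 1` (outward normal) and makes `|x| = s` minimal. -/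
def ShellFillIn (a H : E3 → ℝ) : Prop :=
  ∃ s : ℝ, 0 < s ∧ s < 1 ∧ ∃ g : Met,
    (∀ i j, ContDiffOn ℝ ∞ (fun x => g x i j) {0}ᶜ) ∧ (∀ x, (g x).IsSymm) ∧
    (∀ x, s ≤ ‖x‖ → ‖x‖ ≤ 1 → (g x).PosDef ∧ 0 ≤ Scal g x) ∧
    (∀ x, ‖x‖ = 1 → (∀ v : E3, inner ℝ x v = 0 → ∑ i, ∑ j, g x i j * v i * v j = a x * ‖v‖ ^ 2) ∧
      meanCurv g (fun y => ‖y‖ ^ 2) x = H x) ∧
    (∀ x, ‖x‖ = s → meanCurv g (fun y => ‖y‖ ^ 2) x = 0)

end Pool.Agent.Lib.MP_a054ff_gt
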