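import Pool.Agent.Lib.MP_a054ff_gt.RDefs

-- part Pool.Agent.Lib.MP_a054ff_gt.Calc
section

/-! Calculus toolkit: functions smooth near a point, partial derivatives, flat Laplacian. -/

namespace Pool.Agent.Lib.MP_a054ff_gt

open Filter Topology Set
open scoped ContDiff

section Sm

variable {X : Type*} [NormedAddCommGroup X] [NormedSpace ℝ X] {f g : X → ℝ} {x : X}

/-- smooth on a neighbourhood of `x` -/
def Sm (f : X → ℝ) (x : X) : Prop := ∀ᶠ y in 𝓝 x, ContDiffAt ℝ ∞ f y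

theorem Sm.at (h : Sm f x) : ContDiffAt ℝ ∞ f x := h.self_of_nhds

theorem Sm.diff (h : Sm f x) : DifferentiableAt ℝ f x := h.at.differentiableAt (by simp)

theorem Sm.cont (h : Sm f x) : ContinuousAt f x := h.at.continuousAt

theorem Sm.ev (h : Sm f x) : ∀ᶠ y in 𝓝 x, Sm f y := eventually_eventually_nhds.2 h

theorem sm_of (h : ContDiff ℝ ∞ f) (x : X) : Sm f x := Eventually.of_forall fun _ => h.contDiffAt

theorem contDiff_of_sm (h : ∀ x, Sm f x) : ContDiff ℝ ∞ f :=
  contDiff_iff_contDiffAt.2 fun x => (h x).at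

theorem Sm.const (c : ℝ) : Sm (fun _ : X => c) x := sm_of contDiff_const x

theorem Sm.add (hf : Sm f x) (hg : Sm g x) : Sm (fun y => f y + g y) x := by
  filter_upwards [hf, hg] with y a b using a.add b

theorem Sm.sub (hf : Sm f x) (hg : Sm g x) : Sm (fun y => f y - g y) x := by
  filter_upwards [hf, hg] with y a b using a.sub b

theorem Sm.mul (hf : Sm f x) (hg : Sm g x) : Sm (fun y => f y * g y) x := by
  filter_upwards [hf, hg] with y a b using a.mul b

theorem Sm.neg (hf : Sm f x) : Sm (fun y => -f y) x := by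
  filter_upwards [hf] with y a using a.neg

theorem Sm.pow (hf : Sm f x) (n : ℕ) : Sm (fun y => f y ^ n) x := by
  filter_upwards [hf] with y a using a.pow n

theorem Sm.cmul (c : ℝ) (hf : Sm f x) : Sm (fun y => c * f y) x := (Sm.const c).mul hf

theorem Sm.exp (hf : Sm f x) : Sm (fun y => Real.exp (f y)) x := by
  filter_upwards [hf] with y a using a.exp

theorem Sm.inv (hf : Sm f x) (h0 : f x ≠ 0) : Sm (fun y => (f y)⁻¹) x := by
  filter_upwards [hf, hf.cont.eventually_ne h0] with y a b using a.inv b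

theorem Sm.congr (hf : Sm f x) (e : g =ᶠ[𝓝 x] f) : Sm g x := by
  filter_upwards [hf, e.eventuallyEq_nhds] with y a b using a.congr_of_eventuallyEq b

theorem Sm.sum {ι : Type*} {s : Finset ι} {F : ι → X → ℝ} (h : ∀ i ∈ s, Sm (F i) x) :
    Sm (fun y => ∑ i ∈ s, F i y) x := by
  filter_upwards [(eventually_all_finset s).2 h] with y a using ContDiffAt.sum a

theorem Sm.comp {Y : Type*} [NormedAddCommGroup Y] [NormedSpace ℝ Y] {φ : Y → X} {y : Y}
    (hf : Sm f (φ y)) (hφ : ContDiff ℝ ∞ φ) : Sm (fun z => f (φ z)) y := by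
  filter_upwards [hφ.continuous.continuousAt.eventually hf] with z a using a.comp z hφ.contDiffAt

theorem Sm.comp' {η : ℝ → ℝ} (hη : Sm η (f x)) (hf : Sm f x) : Sm (fun z => η (f z)) x := by
  filter_upwards [hf.cont.eventually hη, hf] with z a b using a.comp z b

theorem Sm.dd (hf : Sm f x) (v : X) : Sm (fun y => fderiv ℝ f y v) x := by
  filter_upwards [hf] with y a
  exact (a.fderiv_right (m := ∞) (by simp)).clm_apply contDiffAt_const

theorem Sm.dd_comm (hf : Sm f x) (v w : X) :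
    fderiv ℝ (fun y => fderiv ℝ f y v) x w = fderiv ℝ (fun y => fderiv ℝ f y w) x v := by
  have h1 : DifferentiableAt ℝ (fderiv ℝ f) x :=
    (hf.at.fderiv_right (m := 1) (by norm_cast)).differentiableAt (by simp)
  have h2 : ∀ a b : X, fderiv ℝ (fun y => fderiv ℝ f y a) x b = fderiv ℝ (fderiv ℝ f) x b a := by
    intro a b
    rw [fderiv_clm_apply h1 (differentiableAt_const a)]
    simp
  rw [h2, h2]
  exact hf.at.isSymmSndFDerivAt (by simp only [minSmoothness_of_isRCLikeNormedField]; norm_cast) _ _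

end Sm

variable {f g h : E3 → ℝ} {x : E3} {i j k : Fin 3}

theorem Sm.pd (hf : Sm f x) (i : Fin 3) : Sm (pd i f) x := hf.dd _

theorem contDiff_pd (hf : ContDiff ℝ ∞ f) (i : Fin 3) : ContDiff ℝ ∞ (pd i f) :=
  contDiff_of_sm fun x => (sm_of hf x).pd i

theorem contDiff_coord (i : Fin 3) : ContDiff ℝ ∞ fun y : E3 => y i :=
  (EuclideanSpace.proj i : E3 →L[ℝ] ℝ).contDiff

theorem Sm.coord (i : Fin 3) : Sm (fun y : E3 => y i) x := sm_of (contDiff_coord i) x

theorem pd_comm (hf : Sm f x) (i j : Fin 3) : pd i (pd j f) x = pd j (pd i f) x :=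
  hf.dd_comm _ _

theorem pd_congr (e : f =ᶠ[𝓝 x] g) (i : Fin 3) : pd i f x = pd i g x := by
  unfold pd; rw [e.fderiv_eq]

theorem pd_ev (e : f =ᶠ[𝓝 x] g) (i : Fin 3) : pd i f =ᶠ[𝓝 x] pd i g := by
  filter_upwards [e.eventuallyEq_nhds] with y a using pd_congr a i

theorem pd_const (c : ℝ) : pd i (fun _ => c) x = 0 := by simp [pd]

theorem pd_add (hf : Sm f x) (hg : Sm g x) : pd i (fun y => f y + g y) x = pd i f x + pd i g x := by
  unfold pd; rw [fderiv_fun_add hf.diff hg.diff]; rfl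

theorem pd_sub (hf : Sm f x) (hg : Sm g x) : pd i (fun y => f y - g y) x = pd i f x - pd i g x := by
  unfold pd; rw [fderiv_fun_sub hf.diff hg.diff]; rfl

theorem pd_mul (hf : Sm f x) (hg : Sm g x) :
    pd i (fun y => f y * g y) x = f x * pd i g x + g x * pd i f x := by
  unfold pd; rw [fderiv_fun_mul hf.diff hg.diff]; simp

theorem pd_cmul (c : ℝ) (hg : Sm g x) : pd i (fun y => c * g y) x = c * pd i g x := by
  rw [pd_mul (Sm.const c) hg, pd_const]; ring

theorem pd_sum {ι : Type*} {s : Finset ι} {F : ι → E3 → ℝ} (h : ∀ a ∈ s, Sm (F a) x) :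
    pd i (fun y => ∑ a ∈ s, F a y) x = ∑ a ∈ s, pd i (F a) x := by
  unfold pd; rw [fderiv_fun_sum fun a ha => (h a ha).diff]; simp

theorem pd_coord (j : Fin 3) : pd i (fun y : E3 => y j) x = if j = i then 1 else 0 := by
  unfold pd
  have : (fun y : E3 => y j) = (EuclideanSpace.proj j : E3 →L[ℝ] ℝ) := rfl
  rw [this, ContinuousLinearMap.fderiv]
  simp

theorem pd_comp {η : ℝ → ℝ} {η' : ℝ} (hη : HasDerivAt η η' (f x)) (hf : Sm f x) :
    pd i (fun y => η (f y)) x = η' * pd i f x := by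
  unfold pd
  have := (hη.comp_hasFDerivAt x hf.diff.hasFDerivAt).fderiv
  rw [show (fun y => η (f y)) = η ∘ f from rfl, this]
  simp

theorem pd_inv (hf : Sm f x) (h0 : f x ≠ 0) :
    pd i (fun y => (f y)⁻¹) x = -(f x ^ 2)⁻¹ * pd i f x :=
  pd_comp (η := fun t => t⁻¹) (hasDerivAt_inv h0) hf

theorem pd_pow (hf : Sm f x) (n : ℕ) :
    pd i (fun y => f y ^ n) x = n * f x ^ (n - 1) * pd i f x :=
  pd_comp (η := fun t => t ^ n) (hasDerivAt_pow n _) hf

theorem pd_exp (hf : Sm f x) : pd i (fun y => Real.exp (f y)) x = Real.exp (f x) * pd i f x :=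
  pd_comp (Real.hasDerivAt_exp _) hf

/-- `|x|²` -/
noncomputable def rr (x : E3) : ℝ := ‖x‖ ^ 2

theorem rr_eq (x : E3) : rr x = x 0 ^ 2 + x 1 ^ 2 + x 2 ^ 2 := by
  simp [rr, EuclideanSpace.norm_sq_eq, Fin.sum_univ_three]

theorem contDiff_rr : ContDiff ℝ ∞ rr := contDiff_norm_sq ℝ

theorem Sm.rr : Sm rr x := sm_of contDiff_rr x

theorem pd_rr (i : Fin 3) (x : E3) : pd i rr x = 2 * x i := by
  have : rr = fun x : E3 => x 0 ^ 2 + x 1 ^ 2 + x 2 ^ 2 := funext rr_eq
  rw [this, pd_add (((Sm.coord 0).pow 2).add ((Sm.coord 1).pow 2)) ((Sm.coord 2).pow 2),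
    pd_add ((Sm.coord 0).pow 2) ((Sm.coord 1).pow 2), pd_pow (Sm.coord 0), pd_pow (Sm.coord 1),
    pd_pow (Sm.coord 2), pd_coord, pd_coord, pd_coord]
  fin_cases i <;> simp

theorem pd_rr' (i : Fin 3) : pd i rr = fun x => 2 * x i := funext (pd_rr i)

theorem pd_pd_rr (i j : Fin 3) (x : E3) : pd i (pd j rr) x = if j = i then 2 else 0 := by
  rw [pd_rr', pd_cmul 2 (Sm.coord j), pd_coord]
  split_ifs <;> simp

/-- flat Laplacian -/
noncomputable def Lap0 (f : E3 → ℝ) (x : E3) : ℝ := ∑ i, pd i (pd i f) x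

/-- Euler operator `x · ∇` -/
noncomputable def Eu (f : E3 → ℝ) (x : E3) : ℝ := ∑ i, x i * pd i f x

/-- `∇²f(x, x)` -/
noncomputable def Qq2 (f : E3 → ℝ) (x : E3) : ℝ := ∑ i, ∑ j, x i * x j * pd i (pd j f) x

/-- `∇f · ∇g` -/
noncomputable def Gr (f g : E3 → ℝ) (x : E3) : ℝ := ∑ i, pd i f x * pd i g x

theorem Sm.lap (hf : Sm f x) : Sm (Lap0 f) x := Sm.sum fun i _ => (hf.pd i).pd i

theorem Sm.eu (hf : Sm f x) : Sm (Eu f) x := Sm.sum fun i _ => (Sm.coord i).mul (hf.pd i)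

theorem Sm.qq (hf : Sm f x) : Sm (Qq2 f) x :=
  Sm.sum fun i _ => Sm.sum fun j _ => ((Sm.coord i).mul (Sm.coord j)).mul ((hf.pd j).pd i)

theorem Sm.gr (hf : Sm f x) (hg : Sm g x) : Sm (Gr f g) x :=
  Sm.sum fun i _ => (hf.pd i).mul (hg.pd i)

theorem lap_congr (e : f =ᶠ[𝓝 x] g) : Lap0 f x = Lap0 g x :=
  Finset.sum_congr rfl fun i _ => pd_congr (pd_ev e i) i

theorem eu_congr (e : f =ᶠ[𝓝 x] g) : Eu f x = Eu g x :=
  Finset.sum_congr rfl fun i _ => by rw [pd_congr e i]

theorem pp_add (hf : Sm f x) (hg : Sm g x) :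
    pd i (pd j fun y => f y + g y) x = pd i (pd j f) x + pd i (pd j g) x := by
  rw [← pd_add (hf.pd j) (hg.pd j)]
  refine pd_congr ?_ i
  filter_upwards [hf.ev, hg.ev] with y a b using pd_add a b

theorem pp_mul (hf : Sm f x) (hg : Sm g x) :
    pd i (pd j fun y => f y * g y) x = f x * pd i (pd j g) x + pd i f x * pd j g x +
      pd j f x * pd i g x + g x * pd i (pd j f) x := by
  have : (pd j fun y => f y * g y) =ᶠ[𝓝 x] fun y => f y * pd j g y + g y * pd j f y := by
    filter_upwards [hf.ev, hg.ev] with y a b using pd_mul a b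
  rw [pd_congr this, pd_add (hf.mul (hg.pd j)) (hg.mul (hf.pd j)), pd_mul hf (hg.pd j),
    pd_mul hg (hf.pd j)]
  ring

theorem pp_const (c : ℝ) : pd i (pd j fun _ => c) x = 0 := by
  rw [show (pd j fun _ => c) = fun _ => 0 from funext fun _ => pd_const c, pd_const]

theorem pp_cmul (c : ℝ) (hg : Sm g x) : pd i (pd j fun y => c * g y) x = c * pd i (pd j g) x := by
  rw [pp_mul (Sm.const c) hg, pp_const, pd_const, pd_const]; ring

theorem lap_add (hf : Sm f x) (hg : Sm g x) :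
    Lap0 (fun y => f y + g y) x = Lap0 f x + Lap0 g x := by
  simp only [Lap0, pp_add hf hg, Finset.sum_add_distrib]

theorem lap_cmul (c : ℝ) (hg : Sm g x) : Lap0 (fun y => c * g y) x = c * Lap0 g x := by
  simp only [Lap0, pp_cmul c hg, Finset.mul_sum]

theorem lap_const (c : ℝ) : Lap0 (fun _ => c) x = 0 := by simp only [Lap0, pp_const]; simp

theorem lap_mul (hf : Sm f x) (hg : Sm g x) :
    Lap0 (fun y => f y * g y) x = f x * Lap0 g x + 2 * Gr f g x + g x * Lap0 f x := by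
  simp only [Lap0, Gr, pp_mul hf hg, Fin.sum_univ_three]; ring

theorem lap_comp {η η' : ℝ → ℝ} {η'' : ℝ} (h1 : ∀ᶠ t in 𝓝 (f x), HasDerivAt η (η' t) t)
    (h2 : HasDerivAt η' η'' (f x)) (h3 : Sm η' (f x)) (hf : Sm f x) :
    Lap0 (fun y => η (f y)) x = η'' * Gr f f x + η' (f x) * Lap0 f x := by
  have : ∀ i, pd i (pd i fun y => η (f y)) x =
      η'' * (pd i f x * pd i f x) + η' (f x) * pd i (pd i f) x := by
    intro i
    have e : (pd i fun y => η (f y)) =ᶠ[𝓝 x] fun y => η' (f y) * pd i f y := by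
      filter_upwards [hf.ev, hf.cont.eventually h1] with y a b using pd_comp b a
    rw [pd_congr e, pd_mul (h3.comp' hf) (hf.pd i), pd_comp h2 hf]; ring
  simp only [Lap0, Gr, this, Fin.sum_univ_three]; ring

theorem lap_rr (x : E3) : Lap0 rr x = 6 := by
  simp only [Lap0, pd_pd_rr]; simp; norm_num

theorem gr_rr (f : E3 → ℝ) (x : E3) : Gr f rr x = 2 * Eu f x := by
  simp only [Gr, Eu, pd_rr, Fin.sum_univ_three]; ring

theorem eu_rr (x : E3) : Eu rr x = 2 * rr x := by
  simp only [Eu, pd_rr, Fin.sum_univ_three, rr_eq]; ring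

theorem eu_add (hf : Sm f x) (hg : Sm g x) : Eu (fun y => f y + g y) x = Eu f x + Eu g x := by
  simp only [Eu, pd_add hf hg, Fin.sum_univ_three]; ring

theorem eu_sub (hf : Sm f x) (hg : Sm g x) : Eu (fun y => f y - g y) x = Eu f x - Eu g x := by
  simp only [Eu, pd_sub hf hg, Fin.sum_univ_three]; ring

theorem eu_mul (hf : Sm f x) (hg : Sm g x) :
    Eu (fun y => f y * g y) x = f x * Eu g x + g x * Eu f x := by
  simp only [Eu, pd_mul hf hg, Fin.sum_univ_three]; ring

theorem eu_const (c : ℝ) : Eu (fun _ => c) x = 0 := by simp [Eu, pd_const]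

theorem eu_cmul (c : ℝ) (hg : Sm g x) : Eu (fun y => c * g y) x = c * Eu g x := by
  rw [eu_mul (Sm.const c) hg, eu_const]; ring

theorem eu_comp {η : ℝ → ℝ} {η' : ℝ} (hη : HasDerivAt η η' (f x)) (hf : Sm f x) :
    Eu (fun y => η (f y)) x = η' * Eu f x := by
  simp only [Eu, pd_comp hη hf, Fin.sum_univ_three]; ring

theorem gr_comp {η : ℝ → ℝ} {η' : ℝ} (hη : HasDerivAt η η' (f x)) (hf : Sm f x) :
    Gr g (fun y => η (f y)) x = η' * Gr g f x := by
  simp only [Gr, pd_comp hη hf, Fin.sum_univ_three]; ring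

theorem qq_add (hf : Sm f x) (hg : Sm g x) :
    Qq2 (fun y => f y + g y) x = Qq2 f x + Qq2 g x := by
  simp only [Qq2, pp_add hf hg, Fin.sum_univ_three]; ring

theorem qq_cmul (c : ℝ) (hg : Sm g x) : Qq2 (fun y => c * g y) x = c * Qq2 g x := by
  simp only [Qq2, pp_cmul c hg, Fin.sum_univ_three]; ring

/-- `(x · ∇)² f = ∇²f(x, x) + x · ∇f` -/
theorem eu_eu (hf : Sm f x) : Eu (Eu f) x = Qq2 f x + Eu f x := by
  have : ∀ i, pd i (Eu f) x = ∑ j, (x j * pd i (pd j f) x + pd j f x * if j = i then 1 else 0) := by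
    intro i
    unfold Eu
    rw [pd_sum fun j _ => (Sm.coord j).mul (hf.pd j)]
    exact Finset.sum_congr rfl fun j _ => by rw [pd_mul (Sm.coord j) (hf.pd j), pd_coord]
  rw [Eu]
  simp only [this, Qq2, Eu, Fin.sum_univ_three]
  simp
  ring

/-- the concave profile -/
noncomputable def eta (N t : ℝ) : ℝ := (1 - Real.exp (-N * t)) / N

theorem eta_zero (N : ℝ) : eta N 0 = 0 := by simp [eta]

theorem hasDerivAt_eta {N : ℝ} (hN : N ≠ 0) (t : ℝ) :
    HasDerivAt (eta N) (Real.exp (-N * t)) t := by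
  have := ((((hasDerivAt_id t).const_mul (-N)).exp).const_sub 1).div_const N
  refine this.congr_deriv ?_
  field_simp
  simp

theorem contDiff_eta (N : ℝ) : ContDiff ℝ ∞ (eta N) := by
  unfold eta; fun_prop

theorem eta_nonneg {N t : ℝ} (hN : 0 < N) (ht : 0 ≤ t) : 0 ≤ eta N t := by
  refine div_nonneg (sub_nonneg.2 (Real.exp_le_one_iff.2 ?_)) hN.le
  nlinarith

theorem eta_le {N t : ℝ} (hN : 0 < N) : eta N t ≤ 1 / N :=
  div_le_div_of_nonneg_right (by linarith [Real.exp_pos (-N * t)]) hN.le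

theorem lap_eta {p t : E3 → ℝ} {N : ℝ} (hN : N ≠ 0) (hp : Sm p x) (ht : Sm t x) :
    Lap0 (fun y => p y * eta N (t y)) x = eta N (t x) * Lap0 p x +
      Real.exp (-N * t x) * (2 * Gr p t x + p x * Lap0 t x - N * (p x * Gr t t x)) := by
  have h2 : HasDerivAt (fun t => Real.exp (-N * t)) (Real.exp (-N * t x) * (-N)) (t x) := by
    simpa using ((hasDerivAt_id (t x)).const_mul (-N)).exp
  rw [lap_mul hp ((sm_of (contDiff_eta N) _).comp' ht),
    lap_comp (Eventually.of_forall (hasDerivAt_eta hN)) h2 (sm_of (by fun_prop) _) ht,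
    gr_comp (hasDerivAt_eta hN _) ht]
  ring

/-- A function `p · η(t)` with prescribed normal derivative along `t = 0` and almost nonpositive
Laplacian. -/
theorem exists_eta {K : Set E3} (hK : IsCompact K) {p t : E3 → ℝ} (hp : ∀ x ∈ K, Sm p x)
    (ht : ∀ x ∈ K, Sm t x) (h0 : ∀ x ∈ K, 0 ≤ t x)
    (h1 : ∀ x ∈ K, t x = 0 → 0 < p x * Gr t t x) {δ : ℝ} (hδ : 0 < δ) :
    ∃ N : ℝ, 0 < N ∧ ∀ x ∈ K, Lap0 (fun y => p y * eta N (t y)) x ≤ δ := by
  have key : ∀ᶠ N in (atTop : Filter ℝ), ∀ x ∈ K, 0 < N →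
      Lap0 (fun y => p y * eta N (t y)) x ≤ δ := by
    refine hK.induction_on (p := fun S => ∀ᶠ N in (atTop : Filter ℝ), ∀ x ∈ S, x ∈ K → 0 < N →
      Lap0 (fun y => p y * eta N (t y)) x ≤ δ) (by simp) ?_ ?_ ?_ |>.mono fun N a x hx => a x hx hx
    · intro S T hST hT
      exact hT.mono fun N a x hx => a x (hST hx)
    · intro S T hS hT
      filter_upwards [hS, hT] with N a b x hx using hx.elim (a x) (b x)
    · intro x hx
      set A : E3 → ℝ := fun y => 2 * Gr p t y + p y * Lap0 t y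
      set B : E3 → ℝ := fun y => p y * Gr t t y
      have cA : ContinuousAt A x :=
        ((((hp x hx).gr (ht x hx)).cmul 2).add ((hp x hx).mul (ht x hx).lap)).cont
      have cB : ContinuousAt B x := ((hp x hx).mul ((ht x hx).gr (ht x hx))).cont
      have cL : ContinuousAt (Lap0 p) x := (hp x hx).lap.cont
      have eL : ∀ᶠ y in 𝓝 x, Lap0 p y < |Lap0 p x| + 1 :=
        cL.eventually (gt_mem_nhds (by linarith [le_abs_self (Lap0 p x)]))
      have eA : ∀ᶠ y in 𝓝 x, A y < |A x| + 1 :=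
        cA.eventually (gt_mem_nhds (by linarith [le_abs_self (A x)]))
      have hL : ∀ᶠ N in (atTop : Filter ℝ), (|Lap0 p x| + 1) / N ≤ δ / 2 :=
        (tendsto_const_nhds.div_atTop tendsto_id).eventually (ge_mem_nhds (half_pos hδ))
      have first : ∀ N, 0 < N → (|Lap0 p x| + 1) / N ≤ δ / 2 → ∀ y ∈ K,
          Lap0 p y < |Lap0 p x| + 1 → eta N (t y) * Lap0 p y ≤ δ / 2 := by
        intro N hN a y hy b
        have e0 := eta_nonneg hN (h0 y hy)
        have e1 : eta N (t y) ≤ 1 / N := eta_le hN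
        calc eta N (t y) * Lap0 p y ≤ eta N (t y) * (|Lap0 p x| + 1) := by gcongr
          _ ≤ 1 / N * (|Lap0 p x| + 1) := by gcongr
          _ = (|Lap0 p x| + 1) / N := by ring
          _ ≤ δ / 2 := a
      rcases (h0 x hx).eq_or_lt with e | e
      · have hB : 0 < B x := h1 x hx e.symm
        have eB : ∀ᶠ y in 𝓝 x, B x / 2 < B y := cB.eventually (lt_mem_nhds (by linarith))
        refine ⟨_, mem_nhdsWithin_of_mem_nhds (eL.and (eA.and eB)), ?_⟩
        filter_upwards [hL, eventually_ge_atTop ((|A x| + 1) / (B x / 2))] with N a b y hy hyK hN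
        rw [lap_eta hN.ne' (hp y hyK) (ht y hyK)]
        have := first N hN a y hyK hy.1
        have h3 : |A x| + 1 ≤ N * (B x / 2) := by rwa [div_le_iff₀ (by linarith)] at b
        have h4 : A y - N * B y ≤ 0 := by nlinarith [hy.2.1, hy.2.2]
        have h5 := mul_nonpos_of_nonneg_of_nonpos (Real.exp_pos (-N * t y)).le h4
        simp only [A, B] at h5
        linarith
      · have eB : ∀ᶠ y in 𝓝 x, -(|B x| + 1) < B y :=
          cB.eventually (lt_mem_nhds (by linarith [neg_abs_le (B x)]))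
        have eT : ∀ᶠ y in 𝓝 x, t x / 2 < t y :=
          (ht x hx).cont.eventually (lt_mem_nhds (by linarith))
        refine ⟨_, mem_nhdsWithin_of_mem_nhds (eL.and (eA.and (eB.and eT))), ?_⟩
        have l1 : Tendsto (fun N : ℝ => Real.exp (-(N * (t x / 2)))) atTop (𝓝 0) :=
          Real.tendsto_exp_neg_atTop_nhds_zero.comp (tendsto_id.atTop_mul_const (by linarith))
        have l2 : Tendsto (fun N : ℝ => (N * (t x / 2)) ^ 1 * Real.exp (-(N * (t x / 2))))
            atTop (𝓝 0) :=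
          (Real.tendsto_pow_mul_exp_neg_atTop_nhds_zero 1).comp
            (tendsto_id.atTop_mul_const (by linarith))
        have l3 := (l1.const_mul (|A x| + 1)).add (l2.const_mul ((|B x| + 1) / (t x / 2)))
        simp only [mul_zero, add_zero] at l3
        filter_upwards [hL, l3.eventually (ge_mem_nhds (half_pos hδ))] with N a b y hy hyK hN
        rw [lap_eta hN.ne' (hp y hyK) (ht y hyK)]
        have := first N hN a y hyK hy.1
        have h4 : A y - N * B y ≤ (|A x| + 1) + N * (|B x| + 1) := by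
          nlinarith [hy.2.1, hy.2.2.1]
        have h5 : Real.exp (-N * t y) ≤ Real.exp (-(N * (t x / 2))) :=
          Real.exp_le_exp.2 (by nlinarith [hy.2.2.2])
        have h6 : Real.exp (-N * t y) * (A y - N * B y) ≤
            Real.exp (-(N * (t x / 2))) * ((|A x| + 1) + N * (|B x| + 1)) :=
          (mul_le_mul_of_nonneg_left h4 (Real.exp_pos _).le).trans
            (mul_le_mul_of_nonneg_right h5 (by positivity))
        have h7 : Real.exp (-(N * (t x / 2))) * ((|A x| + 1) + N * (|B x| + 1)) =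
            (|A x| + 1) * Real.exp (-(N * (t x / 2))) + (|B x| + 1) / (t x / 2) *
              ((N * (t x / 2)) ^ 1 * Real.exp (-(N * (t x / 2)))) := by
          field_simp
        simp only [A, B] at h6 h7 b
        linarith
  obtain ⟨N, a, b⟩ := (key.and (eventually_gt_atTop 0)).exists
  exact ⟨N, b, fun x hx => a x hx b⟩

end Pool.Agent.Lib.MP_a054ff_gt
end

-- part Pool.Agent.Lib.MP_a054ff_gt.Curv
section

/-! First variation of scalar curvature at the flat metric, conformally flat metrics, and the mean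
curvature of round spheres. -/

namespace Pool.Agent.Lib.MP_a054ff_gt

open Filter Topology Set
open scoped ContDiff

/-- `G` is a family, jointly smooth near `ε = 0`, with value `G0` and first variation `G1`. -/
structure J (G : ℝ → E3 → ℝ) (G0 G1 : E3 → ℝ) : Prop where
  sm : ∀ x, Sm (fun z : ℝ × E3 => G z.1 z.2) (0, x)
  z : ∀ x, G 0 x = G0 x
  d : ∀ x, HasDerivAt (fun e => G e x) (G1 x) 0

variable {G H : ℝ → E3 → ℝ} {G0 G1 H0 H1 : E3 → ℝ}

theorem Sm.slice {F : ℝ × E3 → ℝ} {z : ℝ × E3} (h : Sm F z) : Sm (fun y => F (z.1, y)) z.2 :=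
  Sm.comp (φ := fun y : E3 => (z.1, y)) h (by fun_prop)

theorem pd_slice {F : ℝ × E3 → ℝ} {z : ℝ × E3} (h : Sm F z) (i : Fin 3) :
    pd i (fun y => F (z.1, y)) z.2 = fderiv ℝ F z (0, EuclideanSpace.single i 1) := by
  have := (h.diff.hasFDerivAt.comp z.2 (hasFDerivAt_prodMk_right (𝕜 := ℝ) z.1 z.2)).fderiv
  unfold pd
  rw [show (fun y => F (z.1, y)) = F ∘ fun y => (z.1, y) from rfl, this]
  simp

theorem hasDerivAt_slice {F : ℝ × E3 → ℝ} {z : ℝ × E3} (h : Sm F z) :
    HasDerivAt (fun e => F (e, z.2)) (fderiv ℝ F z (1, 0)) z.1 := by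
  have := (h.diff.hasFDerivAt.comp z.1 (hasFDerivAt_prodMk_left (𝕜 := ℝ) z.1 z.2)).hasDerivAt
  exact this.congr_deriv (by simp)

theorem Sm.pd2 {z : ℝ × E3} (h : Sm (fun z : ℝ × E3 => G z.1 z.2) z) (i : Fin 3) :
    Sm (fun z : ℝ × E3 => MP_a054ff_gt.pd i (G z.1) z.2) z := by
  refine (h.dd (0, EuclideanSpace.single i 1)).congr ?_
  filter_upwards [h.ev] with w hw using pd_slice hw i

theorem J.of_sm (h : ∀ x, Sm (fun z : ℝ × E3 => G z.1 z.2) (0, x)) :
    J G (G 0) fun x => fderiv ℝ (fun z : ℝ × E3 => G z.1 z.2) (0, x) (1, 0) :=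
  ⟨h, fun _ => rfl, fun x => hasDerivAt_slice (h x)⟩

theorem J.eq1 (h : J G G0 G1) :
    G1 = fun x => fderiv ℝ (fun z : ℝ × E3 => G z.1 z.2) (0, x) (1, 0) :=
  funext fun x => (h.d x).unique (hasDerivAt_slice (h.sm x))

theorem J.sm1 (h : J G G0 G1) (x : E3) : Sm G1 x := by
  rw [h.eq1]; exact ((h.sm x).dd (1, 0)).slice

theorem J.sm0 (h : J G G0 G1) (x : E3) : Sm G0 x := by
  rw [← funext h.z]; exact (h.sm x).slice

theorem J.cast (h : J G G0 G1) (e0 : ∀ x, G0 x = H0 x) (e1 : ∀ x, G1 x = H1 x) : J G H0 H1 := by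
  rwa [← funext e0, ← funext e1]

theorem J.const {f : E3 → ℝ} (hf : ContDiff ℝ ∞ f) : J (fun _ => f) f fun _ => 0 :=
  ⟨fun _ => sm_of (hf.comp contDiff_snd) _, fun _ => rfl, fun _ => hasDerivAt_const _ _⟩

theorem J.eps : J (fun e _ => e) (fun _ => 0) fun _ => 1 :=
  ⟨fun _ => sm_of contDiff_fst _, fun _ => rfl, fun _ => hasDerivAt_id _⟩

theorem J.add (hG : J G G0 G1) (hH : J H H0 H1) :
    J (fun e x => G e x + H e x) (fun x => G0 x + H0 x) fun x => G1 x + H1 x :=
  ⟨fun x => (hG.sm x).add (hH.sm x), fun x => by rw [hG.z, hH.z], fun x => (hG.d x).add (hH.d x)⟩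

theorem J.sub (hG : J G G0 G1) (hH : J H H0 H1) :
    J (fun e x => G e x - H e x) (fun x => G0 x - H0 x) fun x => G1 x - H1 x :=
  ⟨fun x => (hG.sm x).sub (hH.sm x), fun x => by rw [hG.z, hH.z], fun x => (hG.d x).sub (hH.d x)⟩

theorem J.mul (hG : J G G0 G1) (hH : J H H0 H1) :
    J (fun e x => G e x * H e x) (fun x => G0 x * H0 x) fun x => G1 x * H0 x + G0 x * H1 x :=
  ⟨fun x => (hG.sm x).mul (hH.sm x), fun x => by rw [hG.z, hH.z], fun x => by
    have := (hG.d x).mul (hH.d x)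
    rwa [hG.z, hH.z] at this⟩

theorem J.exp (hG : J G G0 G1) :
    J (fun e x => Real.exp (G e x)) (fun x => Real.exp (G0 x)) fun x => Real.exp (G0 x) * G1 x :=
  ⟨fun x => (hG.sm x).exp, fun x => by rw [hG.z], fun x => by
    have := (hG.d x).exp
    rwa [hG.z] at this⟩

theorem J.pow (hG : J G G0 G1) (n : ℕ) :
    J (fun e x => G e x ^ n) (fun x => G0 x ^ n) fun x => n * G0 x ^ (n - 1) * G1 x :=
  ⟨fun x => (hG.sm x).pow n, fun x => by rw [hG.z], fun x => by
    have := (hG.d x).pow n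
    rwa [hG.z] at this⟩

theorem J.cmul (c : ℝ) (hG : J G G0 G1) :
    J (fun e x => c * G e x) (fun x => c * G0 x) fun x => c * G1 x :=
  ((J.const (contDiff_const (c := c))).mul hG).cast (fun _ => rfl) fun _ => by ring

theorem J.sum {ι : Type*} (s : Finset ι) {F : ι → ℝ → E3 → ℝ} {F0 F1 : ι → E3 → ℝ}
    (h : ∀ a, J (F a) (F0 a) (F1 a)) :
    J (fun e x => ∑ a ∈ s, F a e x) (fun x => ∑ a ∈ s, F0 a x) fun x => ∑ a ∈ s, F1 a x :=
  ⟨fun x => Sm.sum fun a _ => (h a).sm x, fun x => Finset.sum_congr rfl fun a _ => (h a).z x,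
    fun x => HasDerivAt.fun_sum fun a _ => (h a).d x⟩

theorem J.pd (hG : J G G0 G1) (i : Fin 3) : J (fun e => pd i (G e)) (pd i G0) (pd i G1) := by
  refine ⟨fun x => (hG.sm x).pd2 i, fun x => by rw [← funext hG.z], fun x => ?_⟩
  set F : ℝ × E3 → ℝ := fun z => G z.1 z.2
  have h1 := hasDerivAt_slice ((hG.sm x).dd (0, EuclideanSpace.single i 1))
  have h2 : (fun e => MP_a054ff_gt.pd i (G e) x) =ᶠ[𝓝 0]
      fun e => fderiv ℝ F (e, x) (0, EuclideanSpace.single i 1) := by
    have c : ContinuousAt (fun e : ℝ => (e, x)) 0 := by fun_prop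
    filter_upwards [c.eventually (hG.sm x).ev] with e he using pd_slice he i
  refine (h1.congr_of_eventuallyEq h2).congr_deriv ?_
  rw [(hG.sm x).dd_comm, hG.eq1]
  exact (pd_slice ((hG.sm x).dd (1, 0)) i).symm

theorem J.eu (hG : J G G0 G1) : J (fun e => Eu (G e)) (Eu G0) (Eu G1) :=
  (J.sum Finset.univ fun i => (J.const (contDiff_coord i)).mul (hG.pd i)).cast (fun _ => rfl)
    fun _ => by simp [Eu]

/-- a family vanishing at `ε = 0` with positive first variation on a compact set is positive -/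
theorem J.pos (hG : J G (fun _ => 0) G1) {K : Set E3} (hK : IsCompact K)
    (h : ∀ x ∈ K, 0 < G1 x) : ∀ᶠ e in 𝓝[>] (0 : ℝ), ∀ x ∈ K, 0 < G e x := by
  set F : ℝ × E3 → ℝ := fun z => G z.1 z.2
  have h1 : ∀ᶠ e in 𝓝 (0 : ℝ), ∀ x ∈ K, Sm F (e, x) ∧ 0 < fderiv ℝ F (e, x) (1, 0) := by
    refine hK.eventually_forall_of_forall_eventually fun x hx => ?_
    have := h x hx
    rw [hG.eq1] at this
    exact (hG.sm x).ev.and (((hG.sm x).dd (1, 0)).cont.eventually (lt_mem_nhds this))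
  obtain ⟨δ, hδ, h2⟩ := Metric.eventually_nhds_iff.1 h1
  filter_upwards [Ioo_mem_nhdsGT hδ] with e he x hx
  have h3 : ∀ t ∈ Icc 0 e, HasDerivAt (fun e => G e x) (fderiv ℝ F (t, x) (1, 0)) t ∧
      0 < fderiv ℝ F (t, x) (1, 0) := by
    intro t ht
    have := h2 (y := t) (by rw [Real.dist_eq, sub_zero, abs_of_nonneg ht.1]; linarith [ht.2, he.2])
      x hx
    exact ⟨hasDerivAt_slice this.1, this.2⟩
  obtain ⟨c, hc, h4⟩ := exists_hasDerivAt_eq_slope (fun e => G e x)
    (fun t => fderiv ℝ F (t, x) (1, 0)) he.1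
    (fun t ht => (h3 t ht).1.continuousAt.continuousWithinAt)
    fun t ht => (h3 t (Ioo_subset_Icc_self ht)).1
  have h5 := (h3 c (Ioo_subset_Icc_self hc)).2
  rw [h4, hG.z, sub_zero, sub_zero] at h5
  exact (div_pos_iff_of_pos_right he.1).1 h5

theorem J.near (hG : J G G0 G1) {K : Set E3} (hK : IsCompact K) {δ : ℝ} (hδ : 0 < δ) :
    ∀ᶠ e in 𝓝 (0 : ℝ), ∀ x ∈ K, |G e x - G0 x| < δ := by
  refine hK.eventually_forall_of_forall_eventually fun x _ => ?_
  have c : ContinuousAt (fun z : ℝ × E3 => |G z.1 z.2 - G0 z.2|) (0, x) :=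
    ((hG.sm x).cont.sub (((hG.sm0 x).cont).comp continuousAt_snd)).abs
  exact c.eventually (gt_mem_nhds (by simpa [hG.z] using hδ))

/-- Kronecker delta -/
def dl (i j : Fin 3) : ℝ := if i = j then 1 else 0

theorem one_eq (i j : Fin 3) : (1 : Matrix (Fin 3) (Fin 3) ℝ) i j = dl i j := Matrix.one_apply

section Var

variable {g : ℝ → Met} {h : Fin 3 → Fin 3 → E3 → ℝ}

theorem J_inv (hg : ∀ i j, J (fun e x => g e x i j) (fun _ => dl i j) (h i j)) (i j : Fin 3) :
    ∃ I1, J (fun e x => (g e x)⁻¹ i j) (fun _ => dl i j) I1 := by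
  have g0 : ∀ x, g 0 x = 1 := fun x => by ext a b; rw [one_eq]; exact (hg a b).z x
  refine ⟨_, (J.of_sm (G := fun e x => (g e x)⁻¹ i j) fun x => ?_).cast
    (fun x => by simp only [g0, inv_one, one_eq]) fun _ => rfl⟩
  have s := fun a b => (hg a b).sm x
  have hd : Sm (fun z : ℝ × E3 => (g z.1 z.2).det) (0, x) := by
    simp only [Matrix.det_fin_three]
    exact (((((((s 0 0).mul (s 1 1)).mul (s 2 2)).sub (((s 0 0).mul (s 1 2)).mul (s 2 1))).sub
      (((s 0 1).mul (s 1 0)).mul (s 2 2))).add (((s 0 1).mul (s 1 2)).mul (s 2 0))).add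
      (((s 0 2).mul (s 1 0)).mul (s 2 1))).sub (((s 0 2).mul (s 1 1)).mul (s 2 0))
  have ha : Sm (fun z : ℝ × E3 => (g z.1 z.2).adjugate i j) (0, x) := by
    simp only [Matrix.adjugate_fin_three]
    fin_cases i <;> fin_cases j <;> simp <;>
      first
        | exact ((s _ _).mul (s _ _)).sub ((s _ _).mul (s _ _))
        | exact ((s _ _).mul (s _ _)).neg.add ((s _ _).mul (s _ _))
  simp only [Matrix.inv_def, Ring.inverse_eq_inv', Matrix.smul_apply, smul_eq_mul]
  exact (hd.inv (by simp [g0])).mul ha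

theorem J_chr (hg : ∀ i j, J (fun e x => g e x i j) (fun _ => dl i j) (h i j)) (k i j : Fin 3) :
    J (fun e => Chr (g e) k i j) (fun _ => 0)
      fun x => 1 / 2 * (pd i (h j k) x + pd j (h i k) x - pd k (h i j) x) := by
  choose I1 hI using J_inv hg
  refine ((J.sum Finset.univ fun l => (hI k l).mul
    ((((hg j l).pd i).add ((hg i l).pd j)).sub ((hg i j).pd l))).cmul (1 / 2)).cast
    (fun x => by simp [pd_const]) fun x => ?_
  simp [pd_const, dl]

theorem J_scal (hg : ∀ i j, J (fun e x => g e x i j) (fun _ => dl i j) (h i j))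
    (hs : ∀ i j, h i j = h j i) :
    J (fun e => Scal (g e)) (fun _ => 0)
      fun x => ∑ i, ∑ j, (pd i (pd j (h i j)) x - pd i (pd i (h j j)) x) := by
  choose I1 hI using J_inv hg
  have c := J_chr hg
  have r : ∀ i j, J (fun e => Ric (g e) i j) (fun _ => 0) fun x => ∑ k,
      (pd k (fun x => 1 / 2 * (pd i (h j k) x + pd j (h i k) x - pd k (h i j) x)) x -
        pd j (fun x => 1 / 2 * (pd i (h k k) x + pd k (h i k) x - pd k (h i k) x)) x) :=
    fun i j => (J.sum Finset.univ fun k => (((c k i j).pd k).sub ((c k i k).pd j)).add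
      (J.sum Finset.univ fun l => ((c k k l).mul (c l i j)).sub ((c k j l).mul (c l i k)))).cast
      (fun x => by simp [pd_const]) fun x => by simp
  refine (J.sum Finset.univ fun i => J.sum Finset.univ fun j => (hI i j).mul (r i j)).cast
    (fun x => by simp) fun x => ?_
  have s := fun a b => (hg a b).sm1 x
  have e : ∀ a b c d e f k l m n : Fin 3,
      pd a (fun x => 1 / 2 * (pd b (h c d) x + pd e (h f k) x - pd l (h m n) x)) x =
      1 / 2 * (pd a (pd b (h c d)) x + pd a (pd e (h f k)) x - pd a (pd l (h m n)) x) := by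
    intro a b c d e f k l m n
    rw [pd_cmul _ ((((s _ _).pd _).add ((s _ _).pd _)).sub ((s _ _).pd _)),
      pd_sub (((s _ _).pd _).add ((s _ _).pd _)) ((s _ _).pd _),
      pd_add ((s _ _).pd _) ((s _ _).pd _)]
  simp only [e, dl, Fin.sum_univ_three]
  simp
  rw [hs 1 0, hs 2 0, hs 2 1, pd_comm (s 0 1) 1 0, pd_comm (s 0 2) 2 0, pd_comm (s 1 2) 2 1]
  ring

end Var

/-- first variation for `h = W δ + L_Y δ` -/
theorem var_formula {W : E3 → ℝ} {Y : Fin 3 → E3 → ℝ} {x : E3} (hW : Sm W x)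
    (hY : ∀ i, Sm (Y i) x) :
    ∑ i, ∑ j, (pd i (pd j fun y => dl i j * W y + (pd i (Y j) y + pd j (Y i) y)) x -
      pd i (pd i fun y => dl j j * W y + (pd j (Y j) y + pd j (Y j) y)) x) = -2 * Lap0 W x := by
  have e : ∀ a b c d e f k l, pd a (pd b fun y => dl c d * W y + (pd e (Y f) y + pd k (Y l) y)) x =
      dl c d * pd a (pd b W) x + (pd a (pd b (pd e (Y f))) x + pd a (pd b (pd k (Y l))) x) := by
    intro a b c d e f k l
    rw [pp_add (hW.cmul _) (((hY _).pd _).add ((hY _).pd _)), pp_cmul _ hW,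
      pp_add ((hY _).pd _) ((hY _).pd _)]
  have c1 : ∀ a b f, pd a (pd b (pd a (Y f))) x = pd a (pd a (pd b (Y f))) x := by
    intro a b f
    refine pd_congr ?_ a
    filter_upwards [(hY f).ev] with y hy using pd_comm hy _ _
  have c2 : ∀ a b f, pd a (pd b (pd b (Y f))) x = pd b (pd b (pd a (Y f))) x := by
    intro a b f
    rw [pd_comm ((hY f).pd b) a b, c1]
  simp only [e]
  simp only [Lap0, dl, Fin.sum_univ_three]
  simp
  rw [c1 0 1 1, c1 0 2 2, c1 1 0 0, c1 1 2 2, c1 2 0 0, c1 2 1 1, c2 0 1 0, c2 0 2 0, c2 1 0 1,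
    c2 1 2 1, c2 2 0 2, c2 2 1 2]
  ring

theorem inv_scal {A : Matrix (Fin 3) (Fin 3) ℝ} {a : ℝ} (ha : a ≠ 0)
    (h : ∀ i j, A i j = dl i j * a) (i j : Fin 3) : A⁻¹ i j = dl i j * a⁻¹ := by
  have : A⁻¹ = a⁻¹ • (1 : Matrix (Fin 3) (Fin 3) ℝ) := by
    refine Matrix.inv_eq_right_inv ?_
    have : A = a • (1 : Matrix (Fin 3) (Fin 3) ℝ) := by
      ext i j; rw [h, Matrix.smul_apply, one_eq, smul_eq_mul, mul_comm]
    rw [this]; simp [smul_smul, ha]
  rw [this, Matrix.smul_apply, one_eq, smul_eq_mul, mul_comm]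

/-- scalar curvature of `u⁴ δ` -/
theorem scal_conf {g : Met} {u : E3 → ℝ} {x : E3} (hu : Sm u x) (h0 : u x ≠ 0)
    (hg : ∀ᶠ y in 𝓝 x, ∀ i j, g y i j = dl i j * u y ^ 4) :
    Scal g x = -8 * Lap0 u x / u x ^ 5 := by
  have hc : ∀ᶠ y in 𝓝 x, ∀ k i j, Chr g k i j y = dl j k * (2 * (pd i u y * (u y)⁻¹)) +
      dl i k * (2 * (pd j u y * (u y)⁻¹)) - dl i j * (2 * (pd k u y * (u y)⁻¹)) := by
    filter_upwards [hg, hg.eventually_nhds, hu.ev, hu.cont.eventually_ne h0] with y a b c d k i j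
    have e : ∀ p q r, pd p (fun y => g y q r) y = dl q r * (4 * u y ^ 3 * pd p u y) := by
      intro p q r
      rw [pd_congr (b.mono fun z hz => hz q r), pd_cmul _ (c.pow 4), pd_pow c]
      norm_num
    simp only [Chr, e, inv_scal (pow_ne_zero 4 d) a]
    fin_cases k <;> simp [dl] <;> split_ifs <;> field_simp <;> ring
  have sω : ∀ i, Sm (fun y => 2 * (pd i u y * (u y)⁻¹)) x :=
    fun i => ((hu.pd i).mul (hu.inv h0)).cmul 2
  have hω : ∀ p i, pd p (fun y => 2 * (pd i u y * (u y)⁻¹)) x =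
      2 * (pd p (pd i u) x * (u x)⁻¹ - pd i u x * pd p u x * (u x ^ 2)⁻¹) := by
    intro p i
    rw [pd_cmul _ ((hu.pd i).mul (hu.inv h0)), pd_mul (hu.pd i) (hu.inv h0), pd_inv hu h0]
    ring
  have hd : ∀ p k i j, pd p (Chr g k i j) x =
      dl j k * (2 * (pd p (pd i u) x * (u x)⁻¹ - pd i u x * pd p u x * (u x ^ 2)⁻¹)) +
      dl i k * (2 * (pd p (pd j u) x * (u x)⁻¹ - pd j u x * pd p u x * (u x ^ 2)⁻¹)) -
      dl i j * (2 * (pd p (pd k u) x * (u x)⁻¹ - pd k u x * pd p u x * (u x ^ 2)⁻¹)) := by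
    intro p k i j
    rw [pd_congr (hc.mono fun z hz => hz k i j),
      pd_sub (((sω _).cmul _).add ((sω _).cmul _)) ((sω _).cmul _),
      pd_add ((sω _).cmul _) ((sω _).cmul _), pd_cmul _ (sω _), pd_cmul _ (sω _), pd_cmul _ (sω _),
      hω, hω, hω]
  simp only [Scal, Ric, hd, hc.self_of_nhds, inv_scal (pow_ne_zero 4 h0) hg.self_of_nhds, Lap0,
    Fin.sum_univ_three, dl]
  simp
  field_simp
  ring

/-- mean curvature of a round sphere along which the metric is conformal to the flat one -/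
theorem mean_sphere {g : Met} {β : E3 → ℝ} {k : Fin 3 → Fin 3 → E3 → ℝ} {x : E3} {ρ : ℝ}
    (hρ : 0 < ρ) (hx : rr x = ρ ^ 2) (hβ : Sm β x) (h0 : 0 < β x) (hk : ∀ i j, Sm (k i j) x)
    (hg : ∀ᶠ y in 𝓝 x, ∀ i j, g y i j = dl i j * β y + (rr y - ρ ^ 2) * k i j y) :
    meanCurv g rr x = (2 + (Eu β x + ρ ^ 2 * ∑ i, k i i x - ∑ i, ∑ j, x i * x j * k i j x) / β x) /
      (ρ * √(β x)) := by
  have a : ∀ i j, g x i j = dl i j * β x := fun i j => by
    rw [hg.self_of_nhds, hx]; ring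
  have e : ∀ p q r, pd p (fun y => g y q r) x = dl q r * pd p β x + 2 * x p * k q r x := by
    intro p q r
    rw [pd_congr (hg.mono fun z hz => hz q r),
      pd_add (hβ.cmul _) ((Sm.rr.sub (Sm.const _)).mul (hk _ _)), pd_cmul _ hβ,
      pd_mul (Sm.rr.sub (Sm.const _)) (hk _ _), pd_sub Sm.rr (Sm.const _), pd_rr, pd_const, hx]
    ring
  have hgr : ∀ i, grad g rr i x = 2 * x i / β x := by
    intro i
    simp only [grad, inv_scal h0.ne' a, pd_rr]
    fin_cases i <;> simp [dl] <;> field_simp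
  have hx' := hx
  rw [rr_eq] at hx'
  have hq : gradSq g rr x = (2 * ρ / √(β x)) ^ 2 := by
    simp only [gradSq, hgr, pd_rr, Fin.sum_univ_three, div_pow, Real.sq_sqrt h0.le, mul_pow, ← hx']
    field_simp
  have hs : 0 < √(β x) := Real.sqrt_pos.2 h0
  obtain ⟨s, hs1⟩ : ∃ s, s = √(β x) := ⟨_, rfl⟩
  have hb : β x = s ^ 2 := by rw [hs1, Real.sq_sqrt h0.le]
  rw [meanCurv, hq, Real.sqrt_sq (by positivity)]
  simp only [Hess, Chr, e, hgr, inv_scal h0.ne' a, pd_pd_rr, pd_rr, Eu, Fin.sum_univ_three, dl]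
  rw [← hs1] at hs ⊢
  rw [hb]
  simp
  field_simp
  rw [← hx']
  ring

end Pool.Agent.Lib.MP_a054ff_gt
end

-- part Pool.Agent.Lib.MP_a054ff_gt.Neck
section

/-! Auxiliary constructions: a superharmonic function with prescribed normal derivative, and a
small minimal neck in a conformally flat region. -/

namespace Pool.Agent.Lib.MP_a054ff_gt

open Filter Topology Set Metric
open scoped ContDiff

theorem rr_pos {x : E3} (h : x ≠ 0) : 0 < rr x := pow_pos (norm_pos_iff.2 h) 2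

/-- `1 / |x|` -/
noncomputable def nw (x : E3) : ℝ := rr x ^ (-1 / 2 : ℝ)

theorem sm_rpow (p : ℝ) {t : ℝ} (ht : 0 < t) : Sm (fun t : ℝ => t ^ p) t := by
  filter_upwards [lt_mem_nhds ht] with y hy using Real.contDiffAt_rpow_const_of_ne hy.ne'

theorem sm_nw {x : E3} (h : x ≠ 0) : Sm nw x := (sm_rpow _ (rr_pos h)).comp' Sm.rr

theorem nw_eq {x : E3} (h : x ≠ 0) : nw x = ‖x‖⁻¹ := by
  have := norm_pos_iff.2 h
  rw [nw, rr, ← Real.rpow_natCast, ← Real.rpow_mul this.le, ← Real.rpow_neg_one]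
  norm_num

theorem rpow_step {t : ℝ} (ht : 0 < t) (p : ℝ) : t ^ (p - 1) * t = t ^ p := by
  rw [Real.rpow_sub_one ht.ne']; field_simp

theorem eu_nw {x : E3} (h : x ≠ 0) : Eu nw x = -nw x := by
  have hr := rr_pos h
  unfold nw
  rw [eu_comp (η := fun t => t ^ (-1 / 2 : ℝ)) (Real.hasDerivAt_rpow_const (Or.inl hr.ne')) Sm.rr,
    eu_rr, ← rpow_step hr (-1 / 2)]
  ring

theorem lap_nw {x : E3} (h : x ≠ 0) : Lap0 nw x = 0 := by
  have hr := rr_pos h
  unfold nw
  rw [lap_comp (η := fun t => t ^ (-1 / 2 : ℝ)) (η' := fun t => -1 / 2 * t ^ (-1 / 2 - 1 : ℝ))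
    ((lt_mem_nhds hr).mono fun t ht => Real.hasDerivAt_rpow_const (Or.inl ht.ne'))
    ((Real.hasDerivAt_rpow_const (Or.inl hr.ne')).const_mul _) ((sm_rpow _ hr).cmul _) Sm.rr,
    gr_rr, eu_rr, lap_rr, ← rpow_step hr (-1 / 2 - 1)]
  ring

theorem exists_sup {ψ : E3 → ℝ} (hψ : ContDiff ℝ ∞ ψ) (h : ∀ x, ‖x‖ = 1 → 0 < ψ x) :
    ∃ W : E3 → ℝ, ContDiff ℝ ∞ W ∧ (∀ x, ‖x‖ ≤ 1 → Lap0 W x < 0) ∧
      ∀ x, ‖x‖ = 1 → W x = 0 ∧ Eu W x = -ψ x := by
  obtain ⟨x0, hx0, hm⟩ := (isCompact_sphere (0 : E3) 1).exists_isMinOn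
    ⟨EuclideanSpace.single 0 1, by simp⟩ hψ.continuous.continuousOn
  have hc : 0 < ψ x0 := h x0 (by simpa using hx0)
  set c := ψ x0 / 2
  have c0 : 0 < c := half_pos hc
  have sp : ContDiff ℝ ∞ fun x => 1 / 2 * (ψ x - c) := contDiff_const.mul (hψ.sub contDiff_const)
  have st : ContDiff ℝ ∞ fun x => 1 + -1 * rr x :=
    contDiff_const.add (contDiff_const.mul contDiff_rr)
  have et : ∀ x, Eu (fun x => 1 + -1 * rr x) x = -2 * rr x := fun x => by
    rw [eu_add (Sm.const _) (Sm.rr.cmul _), eu_const, eu_cmul _ Sm.rr, eu_rr]; ring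
  have pt : ∀ i x, pd i (fun x => 1 + -1 * rr x) x = -2 * x i := fun i x => by
    rw [pd_add (Sm.const _) (Sm.rr.cmul _), pd_const, pd_cmul _ Sm.rr, pd_rr]; ring
  obtain ⟨N, hN, hL⟩ := exists_eta (isCompact_closedBall (0 : E3) 1) (fun x _ => sm_of sp x)
    (fun x _ => sm_of st x) (fun x hx => by
      have : ‖x‖ ≤ 1 := by simpa using hx
      have := pow_le_one₀ (norm_nonneg x) this (n := 2)
      simp only [rr]; linarith) (fun x _ hx => by
      have h1 : rr x = 1 := by linarith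
      have h2 : ‖x‖ = 1 := (pow_eq_one_iff_of_nonneg (norm_nonneg x) two_ne_zero).1 h1
      have h3 : ψ x0 ≤ ψ x := hm (by simpa using h2)
      have h4 : Gr (fun x => 1 + -1 * rr x) (fun x => 1 + -1 * rr x) x = 4 := by
        rw [rr_eq] at h1
        simp only [Gr, pt, Fin.sum_univ_three]; linarith
      rw [h4]; simp only [c]; linarith) c0
  have se : ContDiff ℝ ∞ fun x => eta N (1 + -1 * rr x) := (contDiff_eta N).comp st
  refine ⟨fun x => c / 2 * (1 + -1 * rr x) + 1 / 2 * (ψ x - c) * eta N (1 + -1 * rr x),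
    (contDiff_const.mul st).add (sp.mul se), fun x hx => ?_, fun x hx => ?_⟩
  · rw [lap_add ((sm_of st x).cmul _) (sm_of (sp.mul se) x), lap_cmul _ (sm_of st x),
      lap_add (Sm.const _) (Sm.rr.cmul _), lap_const, lap_cmul _ Sm.rr, lap_rr]
    linarith [hL x (by simpa using hx)]
  · have h1 : rr x = 1 := by simp [rr, hx]
    rw [eu_add ((sm_of st x).cmul _) (sm_of (sp.mul se) x), eu_cmul _ (sm_of st x),
      eu_mul (sm_of sp x) (sm_of se x), eu_comp (hasDerivAt_eta hN.ne' _) (sm_of st x), et, h1]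
    simp [eta_zero, h1]
    ring

theorem exists_neck {u : E3 → ℝ} (hu : ContDiff ℝ ∞ u) (h0 : ∀ x, ‖x‖ ≤ 1 → 0 < u x)
    (hL : ∀ x, ‖x‖ ≤ 1 → Lap0 u x < 0) :
    ∃ s : ℝ, 0 < s ∧ s < 1 / 4 ∧ ∃ v : E3 → ℝ, (∀ x, x ≠ 0 → Sm v x) ∧
      (∀ x, 1 / 2 < ‖x‖ → v x = u x) ∧ (∀ x, s ≤ ‖x‖ → ‖x‖ ≤ 1 → 0 < v x ∧ Lap0 v x < 0) ∧
      ∀ x, ‖x‖ = s → Eu v x = -v x / 2 := by
  let χ : ContDiffBump (0 : E3) := ⟨1 / 4, 1 / 2, by norm_num, by norm_num⟩
  have sχ : ∀ x, Sm χ x := sm_of χ.contDiff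
  have χ1 : ∀ x : E3, ‖x‖ < 1 / 4 → ∀ᶠ y in 𝓝 x, χ y = 1 := fun x hx => by
    filter_upwards [continuous_norm.continuousAt.eventually (gt_mem_nhds hx)] with y hy
    exact χ.one_of_mem_closedBall (mem_closedBall_zero_iff.2 hy.le)
  have kB := isCompact_closedBall (0 : E3) 1
  obtain ⟨x1, hx1, hm⟩ := kB.exists_isMaxOn ⟨0, by simp⟩
    (contDiff_of_sm fun x => (sm_of hu x).lap).continuous.continuousOn
  set δ := -Lap0 u x1 / 3
  have hδ : 0 < δ := by have := hL x1 (by simpa using hx1); simp only [δ]; linarith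
  have sq : ∀ x, x ≠ 0 → Sm (fun y => χ y * nw y) x := fun x hx => (sχ x).mul (sm_nw hx)
  obtain ⟨M, hM⟩ := (kB.diff (isOpen_ball (x := (0 : E3)) (ε := 1 / 5))).exists_bound_of_continuousOn
    (f := Lap0 fun y => χ y * nw y) fun x hx => ((sq x (by
      rintro rfl; exact hx.2 (by simp))).lap.cont).continuousWithinAt
  have hM' : ∀ x, x ≠ 0 → ‖x‖ ≤ 1 → Lap0 (fun y => χ y * nw y) x ≤ |M| := by
    intro x h1 h2
    by_cases h : ‖x‖ < 1 / 4
    · rw [lap_congr (g := nw) ((χ1 x h).mono fun y hy => by simp [hy]), lap_nw h1]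
      exact abs_nonneg M
    · exact (le_abs_self _).trans ((hM x ⟨by simpa using h2, by simp; linarith⟩).trans
        (le_abs_self M))
  have sE : ContDiff ℝ ∞ fun x => u x + 2 * Eu u x :=
    contDiff_of_sm fun x => (sm_of hu x).add ((sm_of hu x).eu.cmul 2)
  obtain ⟨C0, hC⟩ := kB.exists_bound_of_continuousOn sE.continuous.continuousOn
  set C := |C0| + 1
  have C0' : 0 < C := by positivity
  have hC' : ∀ x, ‖x‖ ≤ 1 → 0 < C - (u x + 2 * Eu u x) := fun x hx => by
    have := (le_abs_self _).trans (hC x (by simpa using hx))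
    simp only [C]; linarith [le_abs_self C0]
  obtain ⟨s, s0, s1, s2⟩ : ∃ s : ℝ, 0 < s ∧ s < 1 / 4 ∧ C * s * |M| ≤ δ := by
    have c : Tendsto (fun s : ℝ => C * s * |M|) (𝓝[>] 0) (𝓝 (C * 0 * |M|)) :=
      tendsto_nhdsWithin_of_tendsto_nhds (Continuous.tendsto (by fun_prop) 0)
    rw [mul_zero, zero_mul] at c
    obtain ⟨s, a, b⟩ := ((c.eventually (ge_mem_nhds hδ)).and
      (Ioo_mem_nhdsGT (show (0 : ℝ) < 1 / 4 by norm_num))).exists
    exact ⟨s, b.1, b.2, a⟩
  have sp : ∀ x, Sm (fun x => (4 * s ^ 2)⁻¹ * (C - (u x + 2 * Eu u x)) * χ x) x := fun x =>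
    (((Sm.const C).sub (sm_of sE x)).cmul _).mul (sχ x)
  have st : ∀ x, Sm (fun x => rr x - s ^ 2) x := fun x => Sm.rr.sub (Sm.const _)
  have pt : ∀ i x, pd i (fun x => rr x - s ^ 2) x = 2 * x i := fun i x => by
    rw [pd_sub Sm.rr (Sm.const _), pd_const, pd_rr, sub_zero]
  have t0 : ∀ x : E3, s ≤ ‖x‖ → 0 ≤ rr x - s ^ 2 := fun x hx =>
    sub_nonneg.2 (pow_le_pow_left₀ s0.le hx 2)
  obtain ⟨N, hN, hE⟩ := exists_eta (kB.diff (isOpen_ball (x := (0 : E3)) (ε := s)))
    (fun x _ => sp x) (fun x _ => st x) (fun x hx => t0 x (by simpa using hx.2)) (fun x hx ht => by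
      have h1 : rr x = s ^ 2 := by linarith
      have h2 : ‖x‖ = s := (sq_eq_sq₀ (norm_nonneg x) s0.le).1 h1
      have h4 : Gr (fun x => rr x - s ^ 2) (fun x => rr x - s ^ 2) x = 4 * s ^ 2 := by
        rw [rr_eq] at h1
        simp only [Gr, pt, Fin.sum_univ_three]; linarith
      have := hC' x (by linarith)
      rw [h4, (χ1 x (by linarith)).self_of_nhds]
      positivity) hδ
  have se : ∀ x, Sm (fun x => eta N (rr x - s ^ 2)) x := fun x =>
    (sm_of (contDiff_eta N) _).comp' (st x)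
  refine ⟨s, s0, s1, fun x => u x + C * s * (χ x * nw x) +
    (4 * s ^ 2)⁻¹ * (C - (u x + 2 * Eu u x)) * χ x * eta N (rr x - s ^ 2),
    fun x hx => ((sm_of hu x).add ((sq x hx).cmul _)).add ((sp x).mul (se x)), fun x hx => ?_,
    fun x h1 h2 => ?_, fun x hx => ?_⟩
  · have : χ x = 0 := χ.zero_of_le_dist (by rw [dist_zero_right]; exact hx.le)
    simp [this]
  · have hx : x ≠ 0 := by rintro rfl; simp at h1; linarith
    constructor
    · have a := h0 x h2
      have b := hC' x h2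
      have c : 0 ≤ χ x := χ.nonneg
      have d := eta_nonneg hN (t0 x h1)
      have e : 0 ≤ nw x := by rw [nw_eq hx]; positivity
      positivity
    · rw [lap_add ((sm_of hu x).add ((sq x hx).cmul _)) ((sp x).mul (se x)),
        lap_add (sm_of hu x) ((sq x hx).cmul _), lap_cmul _ (sq x hx)]
      have a := hE x ⟨by simpa using h2, by simpa using h1⟩
      have b : Lap0 u x ≤ Lap0 u x1 := hm (by simpa using h2)
      have c := mul_le_mul_of_nonneg_left (hM' x hx h2) (mul_pos C0' s0).le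
      simp only [δ] at *
      linarith
  · have hx0 : x ≠ 0 := by rintro rfl; simp at hx; linarith
    have h1 : rr x = s ^ 2 := by rw [rr, hx]
    have e1 := χ1 x (by linarith)
    have e2 : Eu (fun x => rr x - s ^ 2) x = 2 * s ^ 2 := by
      rw [eu_sub Sm.rr (Sm.const _), eu_const, eu_rr, h1, sub_zero]
    rw [eu_add ((sm_of hu x).add ((sq x hx0).cmul _)) ((sp x).mul (se x)),
      eu_add (sm_of hu x) ((sq x hx0).cmul _), eu_cmul _ (sq x hx0), eu_mul (sp x) (se x),
      eu_comp (hasDerivAt_eta hN.ne' _) (st x), e2,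
      eu_congr (f := fun y => χ y * nw y) (g := nw) (e1.mono fun y hy => by simp [hy]), eu_nw hx0]
    simp only [h1, sub_self, eta_zero, e1.self_of_nhds, nw_eq hx0, hx]
    simp
    field_simp
    ring

theorem scal_congr {g g' : Met} {x : E3} (h : g =ᶠ[𝓝 x] g') : Scal g x = Scal g' x := by
  have c : ∀ k i j, Chr g k i j =ᶠ[𝓝 x] Chr g' k i j := by
    intro k i j
    filter_upwards [h.eventuallyEq_nhds] with y hy
    have e : ∀ p q r, pd p (fun y => g y q r) y = pd p (fun y => g' y q r) y :=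
      fun p q r => pd_congr (hy.mono fun z hz => by simp only [hz]) p
    simp only [Chr, e, hy.self_of_nhds]
  simp only [Scal, Ric, h.self_of_nhds, pd_congr (c _ _ _), (c _ _ _).self_of_nhds]

theorem posDef_near {A : Matrix (Fin 3) (Fin 3) ℝ} (hs : A.IsSymm)
    (h : ∀ i j, |A i j - dl i j| < 1 / 4) : A.PosDef := by
  refine Matrix.PosDef.of_dotProduct_mulVec_pos (Matrix.isHermitian_iff_isSymm.2 hs)
    fun v hv => ?_
  have h00 := abs_lt.1 (h 0 0)
  have h01 := abs_lt.1 (h 0 1)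
  have h02 := abs_lt.1 (h 0 2)
  have h11 := abs_lt.1 (h 1 1)
  have h12 := abs_lt.1 (h 1 2)
  have h22 := abs_lt.1 (h 2 2)
  simp [dl] at h00 h01 h02 h11 h12 h22
  have p : 0 < v 0 ^ 2 + v 1 ^ 2 + v 2 ^ 2 := by
    by_contra! hn
    apply hv
    ext i
    fin_cases i <;> simp <;> nlinarith [sq_nonneg (v 0), sq_nonneg (v 1), sq_nonneg (v 2)]
  have o : ∀ a x y : ℝ, -4⁻¹ < a → a < 4⁻¹ → -(4⁻¹ * (x ^ 2 + y ^ 2)) ≤ 2 * a * x * y := by
    intro a x y h1 h2
    nlinarith [mul_nonneg (sub_pos.2 h1).le (sq_nonneg (x + y)),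
      mul_nonneg (sub_pos.2 h2).le (sq_nonneg (x - y))]
  simp only [dotProduct, Matrix.mulVec, Fin.sum_univ_three, star_trivial, hs.apply 0 1,
    hs.apply 0 2, hs.apply 1 2]
  nlinarith [o _ (v 0) (v 1) h01.1 h01.2, o _ (v 0) (v 2) h02.1 h02.2, o _ (v 1) (v 2) h12.1 h12.2,
    mul_nonneg (sub_pos.2 h00.1).le (sq_nonneg (v 0)),
    mul_nonneg (sub_pos.2 h11.1).le (sq_nonneg (v 1)),
    mul_nonneg (sub_pos.2 h22.1).le (sq_nonneg (v 2))]

end Pool.Agent.Lib.MP_a054ff_gt
end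

-- part Pool.Agent.Lib.MP_a054ff_gt.Sph
section

/-! Integration by parts on the unit sphere. -/

namespace Pool.Agent.Lib.MP_a054ff_gt

open Filter Topology Set MeasureTheory Metric
open scoped ContDiff Pointwise

/-- the unit sphere -/
abbrev S2 : Type := sphere (0 : E3) 1

/-- the area measure -/
noncomputable abbrev σ2 : Measure S2 := (volume : Measure E3).toSphere

/-- integral over the unit sphere -/
noncomputable def II (f : E3 → ℝ) : ℝ := ∫ x : S2, f x ∂σ2

variable {f g : E3 → ℝ} {x : E3}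

theorem rr_S2 (x : S2) : rr x = 1 := by simp [rr]

theorem int_cont {F : S2 → ℝ} (h : Continuous F) : Integrable F σ2 :=
  h.integrable_of_hasCompactSupport (HasCompactSupport.of_compactSpace F)

theorem II_congr (h : ∀ x : S2, f x = g x) : II f = II g := by simp only [II, h]

theorem II_add (hf : Continuous f) (hg : Continuous g) :
    II (fun x => f x + g x) = II f + II g :=
  integral_add (int_cont (hf.comp continuous_subtype_val)) (int_cont (hg.comp continuous_subtype_val))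

theorem II_cmul (c : ℝ) (f : E3 → ℝ) : II (fun x => c * f x) = c * II f := integral_const_mul _ _

theorem fderiv_eq_sum (f : E3 → ℝ) (x v : E3) : fderiv ℝ f x v = ∑ i, v i * pd i f x := by
  have : v = ∑ i, v i • EuclideanSpace.single i (1 : ℝ) := by
    ext j; simp [Finset.sum_apply, Pi.single_apply]
  conv_lhs => rw [this]
  simp only [map_sum, map_smul, smul_eq_mul, pd]

theorem II_isom (e : E3 ≃ₗᵢ[ℝ] E3) (f : E3 → ℝ) (hf : Continuous f) :
    II (fun x => f (e x)) = II f := by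
  let T : S2 → S2 := fun x => ⟨e x, by simp⟩
  have cT : Continuous T := (e.continuous.comp continuous_subtype_val).subtype_mk _
  have mp : Measure.map T σ2 = σ2 := by
    ext s hs
    rw [Measure.map_apply cT.measurable hs, Measure.toSphere_apply' _ hs,
      Measure.toSphere_apply' _ (cT.measurable hs)]
    congr 1
    have : Ioo (0 : ℝ) 1 • ((↑) '' (T ⁻¹' s) : Set E3) =
        e.toHomeomorph.toMeasurableEquiv ⁻¹' (Ioo (0 : ℝ) 1 • ((↑) '' s : Set E3)) := by
      ext y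
      constructor
      · rintro ⟨r, hr, _, ⟨z, hz, rfl⟩, rfl⟩
        exact ⟨r, hr, e z, ⟨T z, hz, rfl⟩, by simp⟩
      · rintro ⟨r, hr, _, ⟨z, hz, rfl⟩, h⟩
        refine ⟨r, hr, e.symm z, ⟨⟨e.symm z, by simp⟩, ?_, rfl⟩, ?_⟩
        · simpa [T] using hz
        · apply e.injective
          simpa using h
    rw [this]
    exact MeasurePreserving.measure_preimage_equiv (f := e.toHomeomorph.toMeasurableEquiv)
      e.measurePreserving _
  unfold II
  conv_rhs => rw [← mp]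
  exact (integral_map cT.aemeasurable (hf.comp continuous_subtype_val).aestronglyMeasurable).symm

/-- rotation in a coordinate plane -/
noncomputable def rot (i j : Fin 3) (t : ℝ) (x : E3) : E3 :=
  x + ((Real.cos t - 1) * x i - Real.sin t * x j) • EuclideanSpace.single i (1 : ℝ) +
    (Real.sin t * x i + (Real.cos t - 1) * x j) • EuclideanSpace.single j (1 : ℝ)

theorem II_rot {i j : Fin 3} (hij : i ≠ j) (t : ℝ) (hf : Continuous f) :
    II (fun x => f (rot i j t x)) = II f := by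
  let L : E3 →ₗ[ℝ] E3 :=
    { toFun := rot i j t
      map_add' := fun a b => by
        ext k; simp only [rot, PiLp.add_apply, PiLp.smul_apply, smul_eq_mul]; ring
      map_smul' := fun c a => by
        ext k; simp only [rot, PiLp.add_apply, PiLp.smul_apply, smul_eq_mul, RingHom.id_apply]
        ring }
  have hn : ∀ x, ‖L x‖ = ‖x‖ := by
    intro x
    have : rr (rot i j t x) = rr x := by
      have := Real.sin_sq_add_cos_sq t
      rw [rr_eq, rr_eq]
      fin_cases i <;> fin_cases j <;> simp [rot] at hij ⊢ <;>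
        first
          | linear_combination (x 0 ^ 2 + x 1 ^ 2) * this
          | linear_combination (x 0 ^ 2 + x 2 ^ 2) * this
          | linear_combination (x 1 ^ 2 + x 2 ^ 2) * this
    exact (sq_eq_sq₀ (norm_nonneg _) (norm_nonneg _)).1 this
  exact II_isom (LinearIsometry.toLinearIsometryEquiv ⟨L, hn⟩ rfl) f hf

/-- infinitesimal rotation -/
noncomputable def LL (i j : Fin 3) (f : E3 → ℝ) (x : E3) : ℝ := x i * pd j f x - x j * pd i f x

theorem II_LL (i j : Fin 3) (hij : i ≠ j) (hf : ContDiff ℝ ∞ f) : II (LL i j f) = 0 := by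
  let v : ℝ → E3 → E3 := fun t x =>
    (-Real.sin t * x i - Real.cos t * x j) • EuclideanSpace.single i (1 : ℝ) +
      (Real.cos t * x i - Real.sin t * x j) • EuclideanSpace.single j (1 : ℝ)
  have hv : ∀ x t, HasDerivAt (fun t => rot i j t x) (v t x) t := by
    intro x t
    have a := ((((Real.hasDerivAt_cos t).sub_const 1).mul_const (x i)).sub
      ((Real.hasDerivAt_sin t).mul_const (x j))).smul_const (EuclideanSpace.single i (1 : ℝ))
    have b := (((Real.hasDerivAt_sin t).mul_const (x i)).add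
      (((Real.hasDerivAt_cos t).sub_const 1).mul_const (x j))).smul_const
      (EuclideanSpace.single j (1 : ℝ))
    refine ((a.const_add x).add b).congr_deriv ?_
    simp only [v]
    congr 2
    ring
  have cr : Continuous fun z : ℝ × S2 => rot i j z.1 z.2 := by unfold rot; fun_prop
  have cF' : Continuous fun z : ℝ × S2 => fderiv ℝ f (rot i j z.1 z.2) (v z.1 z.2) :=
    ((hf.continuous_fderiv (by simp)).comp cr).clm_apply (by simp only [v]; fun_prop)
  obtain ⟨C, hC⟩ := ((isCompact_closedBall (0 : ℝ) 1).prod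
    (isCompact_univ (X := S2))).exists_bound_of_continuousOn cF'.continuousOn
  have key := (hasDerivAt_integral_of_dominated_loc_of_deriv_le (μ := σ2) (x₀ := (0 : ℝ))
    (F := fun t (x : S2) => f (rot i j t x))
    (F' := fun t (x : S2) => fderiv ℝ f (rot i j t x) (v t x)) (bound := fun _ => C)
    (closedBall_mem_nhds 0 one_pos)
    (Eventually.of_forall fun t =>
      (hf.continuous.comp (cr.comp (Continuous.prodMk_right t))).aestronglyMeasurable)
    (int_cont (hf.continuous.comp (cr.comp (Continuous.prodMk_right 0))))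
    (cF'.comp (Continuous.prodMk_right 0)).aestronglyMeasurable
    (Eventually.of_forall fun a t ht => hC (t, a) ⟨ht, mem_univ _⟩) (integrable_const C)
    (Eventually.of_forall fun a t _ =>
      ((hf.differentiable (by simp)) _).hasFDerivAt.comp_hasDerivAt t (hv a t))).2
  have e : (fun t => ∫ a : S2, f (rot i j t a) ∂σ2) = fun _ => II f :=
    funext fun t => II_rot hij t hf.continuous
  rw [e] at key
  rw [← key.unique (hasDerivAt_const _ _)]
  refine integral_congr_ae (Eventually.of_forall fun a => ?_)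
  simp only [rot, v, LL, pd]
  simp
  ring

theorem contDiff_LL (i j : Fin 3) (hf : ContDiff ℝ ∞ f) : ContDiff ℝ ∞ (LL i j f) :=
  ((contDiff_coord i).mul (contDiff_pd hf j)).sub ((contDiff_coord j).mul (contDiff_pd hf i))

theorem II_parts (i j : Fin 3) (hij : i ≠ j) (hf : ContDiff ℝ ∞ f) (hg : ContDiff ℝ ∞ g) :
    II (fun x => g x * LL i j f x) = -II (fun x => f x * LL i j g x) := by
  rw [eq_neg_iff_add_eq_zero, ← II_add (hg.mul (contDiff_LL i j hf)).continuous
    (hf.mul (contDiff_LL i j hg)).continuous, ← II_LL i j hij (hf.mul hg)]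
  refine II_congr fun x => ?_
  simp only [LL, pd_mul (sm_of hf _) (sm_of hg _)]
  ring

theorem II_parts2 (i j : Fin 3) (hij : i ≠ j) (hf : ContDiff ℝ ∞ f) (hg : ContDiff ℝ ∞ g) :
    II (fun x => g x * LL i j (LL i j f) x) = II (fun x => f x * LL i j (LL i j g) x) := by
  rw [II_parts i j hij (contDiff_LL i j hf) hg, II_parts i j hij (contDiff_LL i j hg) hf]
  simp only [mul_comm]

/-- the spherical Laplacian -/
noncomputable def DD (f : E3 → ℝ) (x : E3) : ℝ := rr x * Lap0 f x - Qq2 f x - 2 * Eu f x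

theorem contDiff_DD (hf : ContDiff ℝ ∞ f) : ContDiff ℝ ∞ (DD f) :=
  contDiff_of_sm fun x =>
    ((Sm.rr.mul (sm_of hf x).lap).sub (sm_of hf x).qq).sub ((sm_of hf x).eu.cmul 2)

theorem DD_eq (hf : ContDiff ℝ ∞ f) (x : E3) :
    DD f x = LL 0 1 (LL 0 1 f) x + LL 0 2 (LL 0 2 f) x + LL 1 2 (LL 1 2 f) x := by
  have s := sm_of hf x
  have e : ∀ k i j, pd k (LL i j f) x = x i * pd k (pd j f) x + pd j f x * (if i = k then 1 else 0)
      - (x j * pd k (pd i f) x + pd i f x * if j = k then 1 else 0) := by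
    intro k i j
    unfold LL
    rw [pd_sub ((Sm.coord i).mul (s.pd j)) ((Sm.coord j).mul (s.pd i)),
      pd_mul (Sm.coord i) (s.pd j), pd_mul (Sm.coord j) (s.pd i), pd_coord, pd_coord]
  rw [LL, LL, LL]
  simp only [e, DD, Lap0, Qq2, Eu, Fin.sum_univ_three, rr_eq]
  simp
  rw [pd_comm s 1 0, pd_comm s 2 0, pd_comm s 2 1]
  ring

theorem II_DD (hf : ContDiff ℝ ∞ f) (hg : ContDiff ℝ ∞ g) :
    II (fun x => g x * DD f x) = II (fun x => f x * DD g x) := by
  have c : ∀ {f g : E3 → ℝ}, ContDiff ℝ ∞ f → ContDiff ℝ ∞ g → ∀ i j,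
      Continuous fun x => g x * LL i j (LL i j f) x :=
    fun hf hg i j => (hg.mul (contDiff_LL i j (contDiff_LL i j hf))).continuous
  simp only [DD_eq hf, DD_eq hg, mul_add]
  rw [II_add ((c hf hg _ _).fun_add (c hf hg _ _)) (c hf hg _ _), II_add (c hf hg _ _) (c hf hg _ _),
    II_add ((c hg hf _ _).fun_add (c hg hf _ _)) (c hg hf _ _), II_add (c hg hf _ _) (c hg hf _ _),
    II_parts2 0 1 (by decide) hf hg, II_parts2 0 2 (by decide) hf hg,
    II_parts2 1 2 (by decide) hf hg]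

/-- smooth harmonic functions, homogeneous of degree `l` -/
structure Harm (l : ℝ) (Y : E3 → ℝ) : Prop where
  sm : ContDiff ℝ ∞ Y
  lap : ∀ x, Lap0 Y x = 0
  eu : ∀ x, Eu Y x = l * Y x

variable {l m : ℝ} {Y Z : E3 → ℝ}

theorem Harm.qq (h : Harm l Y) (x : E3) : Qq2 Y x = l * (l - 1) * Y x := by
  have := eu_eu (sm_of h.sm x)
  rw [funext h.eu, eu_cmul l (sm_of h.sm x), h.eu] at this
  linarith

theorem Harm.dd (h : Harm l Y) (x : E3) : DD Y x = -(l * (l + 1)) * Y x := by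
  rw [DD, h.lap, h.qq, h.eu]; ring

theorem Harm.orth (h : Harm l Y) (h' : Harm m Z) (hlm : l * (l + 1) ≠ m * (m + 1)) :
    II (fun x => Z x * Y x) = 0 := by
  have := II_DD h.sm h'.sm
  simp only [h.dd, h'.dd] at this
  rw [II_congr (g := fun x => -(l * (l + 1)) * (Z x * Y x)) fun x => by ring, II_cmul,
    II_congr (f := fun x => Y x * (-(m * (m + 1)) * Z x))
      (g := fun x => -(m * (m + 1)) * (Z x * Y x)) fun x => by ring, II_cmul] at this
  have h2 : (l * (l + 1) - m * (m + 1)) * II (fun x => Z x * Y x) = 0 := by linarith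
  exact (mul_eq_zero.1 h2).resolve_left (sub_ne_zero.2 hlm)

theorem harm_const (c : ℝ) : Harm 0 fun _ => c :=
  ⟨contDiff_const, fun _ => lap_const c, fun _ => by rw [eu_const, zero_mul]⟩

theorem harm_coord (i : Fin 3) : Harm 1 fun y => y i := by
  refine ⟨contDiff_coord i, fun x => ?_, fun x => ?_⟩
  · have : ∀ k, (pd k fun y : E3 => y i) = fun _ => if i = k then 1 else 0 :=
      fun k => funext fun _ => pd_coord i
    simp [Lap0, this, pd_const]
  · simp [Eu, pd_coord]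

theorem Harm.pd (h : Harm l Y) (i : Fin 3) : Harm (l - 1) (pd i Y) := by
  refine ⟨contDiff_pd h.sm i, fun x => ?_, fun x => ?_⟩
  · have s := sm_of h.sm
    have : ∀ k, MP_a054ff_gt.pd k (MP_a054ff_gt.pd k (MP_a054ff_gt.pd i Y)) x =
        MP_a054ff_gt.pd i (MP_a054ff_gt.pd k (MP_a054ff_gt.pd k Y)) x := by
      intro k
      rw [← pd_comm ((s x).pd k) k i]
      exact pd_congr (Eventually.of_forall fun y => pd_comm (s y) k i) k
    simp only [Lap0, this]
    rw [← pd_sum fun k _ => ((s x).pd k).pd k]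
    exact (congrArg (fun F => MP_a054ff_gt.pd i F x) (funext h.lap)).trans (pd_const 0)
  · have s := sm_of h.sm x
    have e := congrArg (fun F => MP_a054ff_gt.pd i F x) (funext h.eu)
    simp only [pd_cmul l s] at e
    unfold Eu at e ⊢
    rw [pd_sum fun j _ => (Sm.coord j).mul (s.pd j)] at e
    simp only [pd_mul (Sm.coord _) (s.pd _), pd_coord, pd_comm s i] at e
    simp only [Finset.sum_add_distrib] at e
    simp at e
    linarith

theorem Harm.up (h : Harm l Y) (hl : 2 * l + 1 ≠ 0) (i : Fin 3) :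
    Harm (l + 1) fun y => y i * Y y + -(2 * l + 1)⁻¹ * (rr y * MP_a054ff_gt.pd i Y y) := by
  have h' := h.pd i
  refine ⟨((contDiff_coord i).mul h.sm).add (contDiff_const.mul (contDiff_rr.mul h'.sm)),
    fun x => ?_, fun x => ?_⟩
  · have s := sm_of h.sm x
    have s' := sm_of h'.sm x
    have g1 : Gr (fun y => y i) Y x = MP_a054ff_gt.pd i Y x := by simp [Gr, pd_coord]
    have g2 : Gr rr (MP_a054ff_gt.pd i Y) x = 2 * Eu (MP_a054ff_gt.pd i Y) x := by
      rw [← gr_rr]; simp only [Gr, mul_comm]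
    rw [lap_add ((Sm.coord i).mul s) ((Sm.rr.mul s').cmul _), lap_cmul _ (Sm.rr.mul s'),
      lap_mul (Sm.coord i) s, lap_mul Sm.rr s', h.lap, h'.lap, (harm_coord i).lap, g1, g2, h'.eu,
      lap_rr]
    field_simp
    ring
  · have s := sm_of h.sm x
    have s' := sm_of h'.sm x
    rw [eu_add ((Sm.coord i).mul s) ((Sm.rr.mul s').cmul _), eu_cmul _ (Sm.rr.mul s'),
      eu_mul (Sm.coord i) s, eu_mul Sm.rr s', h.eu, h'.eu, (harm_coord i).eu, eu_rr]
    ring

theorem Harm.zero (h : Harm 0 Y) (x : E3) : Y x = Y 0 := by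
  have hd : ∀ t : ℝ, HasDerivAt (fun t : ℝ => Y (t • x)) (fderiv ℝ Y (t • x) x) t := fun t => by
    have := ((h.sm.differentiable (by simp)) (t • x)).hasFDerivAt.comp_hasDerivAt t
      ((hasDerivAt_id t).smul_const x)
    exact this.congr_deriv (by simp)
  obtain ⟨c, hc, e⟩ := exists_hasDerivAt_eq_slope (fun t : ℝ => Y (t • x)) _ zero_lt_one
    (fun t _ => (hd t).continuousAt.continuousWithinAt) fun t _ => hd t
  have e2 : c * fderiv ℝ Y (c • x) x = 0 := by
    have := h.eu (c • x)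
    rw [zero_mul] at this
    rw [← this, fderiv_eq_sum, Eu, Finset.mul_sum]
    exact Finset.sum_congr rfl fun i _ => by simp [mul_assoc]
  rw [(mul_eq_zero.1 e2).resolve_left hc.1.ne'] at e
  simp at e
  linarith

theorem Harm.one (h : Harm 1 Y) (x : E3) : Y x = ∑ i, MP_a054ff_gt.pd i Y 0 * x i := by
  have := h.eu x
  rw [one_mul] at this
  rw [← this, Eu]
  refine Finset.sum_congr rfl fun i _ => ?_
  have h' := h.pd i
  rw [sub_self] at h'
  rw [h'.zero x, mul_comm]

end Pool.Agent.Lib.MP_a054ff_gt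
end
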